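import Pool.Agent.Lib.TA.ZMT
import Pool.Agent.Lib.TG.Basic
import Pool.Agent.Lib.TG_h68.FinClos

/-!
# TANK G, block C, row J3z: localisation of a subalgebra at a `k`-point, Zariski's main theorem
-/

set_option autoImplicit false

namespace Pool.Agent.TGJ88

open Pool.Agent.TG (ncl)

universe u

section

variable {k L : Type u} [Field k] [Field L] [Algebra k L]

/-- The localisation of `A` at (the kernel of) the `k`-point `x`. -/
def locx (A : Subalgebra k L) (x : A →ₐ[k] k) : Subalgebra k L where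
  carrier := {a | ∃ b c : A, x c ≠ 0 ∧ a * c = b}
  mul_mem' := by
    rintro a a' ⟨b, c, hc, h⟩ ⟨b', c', hc', h'⟩
    refine ⟨b * b', c * c', ?_, ?_⟩
    · rw [map_mul]; exact mul_ne_zero hc hc'
    · push_cast
      rw [← h, ← h']; ring
  add_mem' := by
    rintro a a' ⟨b, c, hc, h⟩ ⟨b', c', hc', h'⟩
    refine ⟨b * c' + b' * c, c * c', ?_, ?_⟩
    · rw [map_mul]; exact mul_ne_zero hc hc'
    · push_cast
      rw [← h, ← h']; ring
  algebraMap_mem' := fun r => ⟨algebraMap k A r, 1, by rw [map_one]; exact one_ne_zero, by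
    rw [OneMemClass.coe_one, mul_one]; rfl⟩

variable {A : Subalgebra k L} {x : A →ₐ[k] k}

theorem mem_locx {a : L} : a ∈ locx A x ↔ ∃ b c : A, x c ≠ 0 ∧ a * c = b := Iff.rfl

theorem le_locx (A : Subalgebra k L) (x : A →ₐ[k] k) : A ≤ locx A x := fun a ha =>
  ⟨⟨a, ha⟩, 1, by rw [map_one]; exact one_ne_zero, by rw [OneMemClass.coe_one, mul_one]⟩

theorem ne_zero_of_ev {c : A} (hc : x c ≠ 0) : (c : L) ≠ 0 := by
  intro h
  apply hc
  have : c = 0 := Subtype.ext h
  rw [this, map_zero]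

theorem inv_mem_locx {c : A} (hc : x c ≠ 0) : (c : L)⁻¹ ∈ locx A x :=
  ⟨1, c, hc, by rw [inv_mul_cancel₀ (ne_zero_of_ev hc)]; rfl⟩

instance algLocx (A : Subalgebra k L) (x : A →ₐ[k] k) : Algebra A (locx A x) :=
  (Subalgebra.inclusion (le_locx A x)).toAlgebra

theorem algebraMap_locx (a : A) : ((algebraMap A (locx A x) a : locx A x) : L) = a := rfl

instance towLocx (A : Subalgebra k L) (x : A →ₐ[k] k) : IsScalarTower k A (locx A x) :=
  IsScalarTower.of_algebraMap_eq fun _ => rfl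

/-- The ideal of the point. -/
def idl (x : A →ₐ[k] k) : Ideal A := RingHom.ker x

theorem mem_idl {a : A} : a ∈ idl x ↔ x a = 0 := Iff.rfl

instance maxIdl (x : A →ₐ[k] k) : (idl x).IsMaximal :=
  RingHom.ker_isMaximal_of_surjective _ fun r => ⟨algebraMap k A r, by
    rw [AlgHom.commutes]; rfl⟩

instance locLocx (A : Subalgebra k L) (x : A →ₐ[k] k) :
    IsLocalization.AtPrime (locx A x) (idl x) := by
  refine (isLocalization_iff _ _).2 ⟨?_, ?_, ?_⟩
  · intro y
    have hy : x (y : A) ≠ 0 := fun h => y.2 h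
    rw [isUnit_iff_exists_inv]
    refine ⟨⟨_, inv_mem_locx hy⟩, Subtype.ext ?_⟩
    have h1 : ((y : A) : L) ≠ 0 := ne_zero_of_ev hy
    exact mul_inv_cancel₀ h1
  · intro z
    obtain ⟨b, c, hc, h⟩ := z.2
    exact ⟨(b, ⟨c, fun h' => hc h'⟩), Subtype.ext h⟩
  · intro a b h
    refine ⟨1, ?_⟩
    have h1 : (a : L) = b := congrArg (fun t : locx A x => (t : L)) h
    rw [Subtype.ext h1]

instance isLocalLocx (A : Subalgebra k L) (x : A →ₐ[k] k) : IsLocalRing (locx A x) :=
  IsLocalization.AtPrime.isLocalRing (locx A x) (idl x)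

/-- Evaluation at the point, on the localisation. -/
noncomputable def evx (A : Subalgebra k L) (x : A →ₐ[k] k) : locx A x →ₐ[k] k :=
  IsLocalization.liftAlgHom (M := (idl x).primeCompl) (f := x) fun y =>
    (Ne.isUnit fun h => y.2 h : IsUnit (x (y : A)))

theorem evx_coe (a : A) : evx A x (algebraMap A (locx A x) a) = x a := by
  rw [evx]
  exact IsLocalization.lift_eq _ _

theorem evx_mk (a : L) (ha : a ∈ A) : evx A x ⟨a, le_locx A x ha⟩ = x ⟨a, ha⟩ :=
  evx_coe (x := x) ⟨a, ha⟩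

theorem inv_mem_of_evx {s : locx A x} (hs : evx A x s ≠ 0) : (s : L)⁻¹ ∈ locx A x := by
  obtain ⟨b, c, hc, h⟩ := s.2
  have h1 : s * algebraMap A (locx A x) c = algebraMap A (locx A x) b := Subtype.ext h
  have h2 := congrArg (evx A x) h1
  rw [map_mul, evx_coe, evx_coe] at h2
  have hb : x b ≠ 0 := by rw [← h2]; exact mul_ne_zero hs hc
  refine ⟨c, b, hb, ?_⟩
  have hs0 : (s : L) ≠ 0 := by
    intro h0
    apply hs
    have : s = 0 := Subtype.ext h0
    rw [this, map_zero]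
  rw [← h, inv_mul_cancel_left₀ hs0]

theorem mem_maxIdeal_iff {s : locx A x} : s ∈ IsLocalRing.maximalIdeal (locx A x) ↔
    evx A x s = 0 := by
  rw [IsLocalRing.mem_maximalIdeal, mem_nonunits_iff]
  constructor
  · intro h
    by_contra h1
    apply h
    rw [isUnit_iff_exists_inv]
    refine ⟨⟨_, inv_mem_of_evx h1⟩, Subtype.ext ?_⟩
    refine mul_inv_cancel₀ (fun h0 => h1 ?_)
    have : s = 0 := Subtype.ext h0
    rw [this, map_zero]
  · intro h h1
    exact (h1.map (evx A x)).ne_zero h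

/-- If `C` is contained in the local ring of `A` at `x` and contains `A` up to elements which do
not vanish at `x`, the local rings are equal. -/
theorem locx_eq_of {C : Subalgebra k L} (hC : C ≤ locx A x)
    (hA : ∀ a ∈ A, ∃ h : L, ∃ hh : h ∈ C, evx A x ⟨h, hC hh⟩ ≠ 0 ∧ h * a ∈ C) :
    locx C ((evx A x).comp (Subalgebra.inclusion hC)) = locx A x := by
  apply le_antisymm
  · rintro a ⟨b, c, hc, h⟩
    have h1 : evx A x ⟨c, hC c.2⟩ ≠ 0 := hc
    have h2 : ((⟨c, hC c.2⟩ : locx A x) : L)⁻¹ ∈ locx A x := inv_mem_of_evx h1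
    have hc0 : (c : L) ≠ 0 := ne_zero_of_ev hc
    have h3 : a = (b : L) * (c : L)⁻¹ := by
      rw [← h, mul_inv_cancel_right₀ hc0]
    rw [h3]
    exact mul_mem (hC b.2) h2
  · have hstep : ∀ a ∈ A, a ∈ locx C ((evx A x).comp (Subalgebra.inclusion hC)) := by
      intro a ha
      obtain ⟨h, hh, h0, hm⟩ := hA a ha
      refine ⟨⟨h * a, hm⟩, ⟨h, hh⟩, h0, ?_⟩
      exact mul_comm _ _
    rintro a ⟨b, c, hc, h⟩
    have hcC := hstep c c.2
    have hbC := hstep b b.2
    obtain ⟨u, w, hw, huw⟩ := hcC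
    -- `c = u / w`, `u` does not vanish
    have hu : (evx A x).comp (Subalgebra.inclusion hC) u ≠ 0 := by
      have h1 : (⟨u, hC u.2⟩ : locx A x) = algebraMap A (locx A x) c * ⟨w, hC w.2⟩ :=
        Subtype.ext huw.symm
      have h2 : (evx A x).comp (Subalgebra.inclusion hC) u = evx A x ⟨u, hC u.2⟩ := rfl
      rw [h2, h1, map_mul, evx_coe]
      exact mul_ne_zero hc hw
    have hu0 : (u : L) ≠ 0 := ne_zero_of_ev hu
    have hc0 : (c : L) ≠ 0 := ne_zero_of_ev hc
    have hcinv : (c : L)⁻¹ = (w : L) * (u : L)⁻¹ := by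
      rw [← huw, mul_inv, mul_comm (w : L), mul_assoc,
        inv_mul_cancel₀ (ne_zero_of_ev hw), mul_one]
    have h3 : a = (b : L) * ((w : L) * (u : L)⁻¹) := by
      rw [← hcinv, ← h, mul_inv_cancel_right₀ hc0]
    rw [h3]
    exact mul_mem hbC (mul_mem (le_locx _ _ w.2) (inv_mem_locx hu))

/-- **Zariski's main theorem** for a normal local ring and a parameter ideal coming from `O`. -/
theorem zmt_locx (hfg : A.FG) (hnorm : ncl (locx A x) ≤ locx A x) (O : Subalgebra k L)
    (hO : O ≤ A) (s : ℕ)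
    (hnil : idl x ^ (s + 1) ≤
      Ideal.span {a : A | (a : L) ∈ O ∧ x a = 0} ⊔ idl x ^ (s + 2)) :
    ∃ hC : ncl O ≤ locx A x,
      locx (ncl O) ((evx A x).comp (Subalgebra.inclusion hC)) = locx A x := by
  have hC : ncl O ≤ locx A x :=
    (Pool.Agent.TG.ncl_mono (hO.trans (le_locx A x))).trans hnorm
  refine ⟨hC, ?_⟩
  let _ : Algebra O A := (Subalgebra.inclusion hO).toAlgebra
  have htow : IsScalarTower k O A := IsScalarTower.of_algebraMap_eq fun _ => rfl
  have hft : Algebra.FiniteType k A := (Subalgebra.fg_iff_finiteType A).1 hfg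
  have hle : Ideal.span {a : A | (a : L) ∈ O ∧ x a = 0} ≤
      ((idl x).under O).map (algebraMap O A) := by
    rw [Ideal.span_le]
    rintro a ⟨ha, ha0⟩
    have h1 : (⟨a, ha⟩ : O) ∈ (idl x).under O := by
      rw [Ideal.under_def, Ideal.mem_comap]
      exact ha0
    exact Ideal.mem_map_of_mem (algebraMap O A) h1
  obtain ⟨h, hhx, hhI, hall⟩ := Pool.Agent.TA.zmt_centre (k := k) (O := O) (idl x)
    (fun a => ⟨x a, by
      rw [mem_idl, map_sub, AlgHom.commutes, Algebra.algebraMap_self_apply, sub_self]⟩) s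
    (hnil.trans (sup_le_sup_right hle _))
  have hint : ∀ a : A, IsIntegral O a → (a : L) ∈ ncl O := by
    intro a ha
    have htow' : IsScalarTower O A L := IsScalarTower.of_algebraMap_eq fun _ => rfl
    have h1 : IsIntegral O (a : L) := ha.map (IsScalarTower.toAlgHom O A L)
    exact h1
  apply locx_eq_of
  intro a ha
  obtain ⟨e, he⟩ := hall ⟨a, ha⟩
  have h1 : IsIntegral O (h ^ e) := hhI.pow e
  refine ⟨((h ^ e : A) : L), hint _ h1, ?_, ?_⟩
  · have h2 : (⟨((h ^ e : A) : L), hC (hint _ h1)⟩ : locx A x) =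
        algebraMap A (locx A x) (h ^ e) := rfl
    rw [h2, evx_coe, map_pow]
    exact pow_ne_zero _ hhx
  · exact hint _ he

theorem mem_of_mul_mem {R : Type*} [CommRing R] (m : Ideal R) [hm : m.IsMaximal] {J : Ideal R}
    {n : ℕ} (hJ : m ^ n ≤ J) {c a : R} (hc : c ∉ m) (h : a * c ∈ J) : a ∈ J := by
  obtain ⟨d, hd⟩ : ∃ d : R, 1 - d * c ∈ m ^ n := by
    have h1 : IsCoprime m (Ideal.span {c}) := by
      rw [Ideal.isCoprime_iff_sup_eq]
      refine hm.1.2 _ (lt_of_le_of_ne le_sup_left ?_)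
      intro h
      have h2 : c ∈ m ⊔ Ideal.span {c} := Ideal.mem_sup_right (Ideal.mem_span_singleton_self _)
      have h4 : m ⊔ Ideal.span {c} ≤ m := h.symm.le
      exact hc (h4 h2)
    have h2 := h1.pow_left (m := n)
    rw [Ideal.isCoprime_iff_exists] at h2
    obtain ⟨p, hp, q, hq, hpq⟩ := h2
    obtain ⟨d, rfl⟩ := Ideal.mem_span_singleton'.1 hq
    refine ⟨d, ?_⟩
    have h3 : 1 - d * c = p := by rw [← hpq]; ring
    rw [h3]
    exact hp
  have h1 : a = a * (1 - d * c) + d * (a * c) := by ring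
  rw [h1]
  exact J.add_mem (J.mul_mem_left _ (hJ hd)) (J.mul_mem_left _ h)

/-- The local ring of `A` at `x` is also the local ring of every `A ≤ A' ≤ locx A x`. -/
theorem locx_eq_of_le {A' : Subalgebra k L} (h1 : A ≤ A') (h2 : A' ≤ locx A x) :
    locx A' ((evx A x).comp (Subalgebra.inclusion h2)) = locx A x := by
  apply locx_eq_of
  intro a ha
  refine ⟨1, one_mem _, ?_, by rw [one_mul]; exact h1 ha⟩
  have : (⟨1, h2 (one_mem _)⟩ : locx A x) = 1 := rfl
  rw [this, map_one]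
  exact one_ne_zero

/-- **Zariski's main theorem**, for a subalgebra `O` of the local ring. -/
theorem zmt_loc (hfg : A.FG) (hnorm : ncl (locx A x) ≤ locx A x) (O : Subalgebra k L)
    (hOfg : O.FG) (hO : O ≤ locx A x) (s : ℕ)
    (hnil : IsLocalRing.maximalIdeal (locx A x) ^ (s + 1) ≤
      Ideal.span {a : locx A x | (a : L) ∈ O ∧ evx A x a = 0} ⊔
        IsLocalRing.maximalIdeal (locx A x) ^ (s + 2)) :
    ∃ hC : ncl O ≤ locx A x,
      locx (ncl O) ((evx A x).comp (Subalgebra.inclusion hC)) = locx A x := by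
  have hA' : A ⊔ O ≤ locx A x := sup_le (le_locx A x) hO
  obtain ⟨x', hx'⟩ : ∃ x', x' = (evx A x).comp (Subalgebra.inclusion hA') := ⟨_, rfl⟩
  have heq : locx (A ⊔ O) x' = locx A x := by
    rw [hx']
    exact locx_eq_of_le le_sup_left hA'
  have hx'2 : ∀ a : (A ⊔ O : Subalgebra k L), x' a = evx A x ⟨a, hA' a.2⟩ := fun a => by
    rw [hx']; rfl
  let _ : Algebra (A ⊔ O : Subalgebra k L) (locx A x) := (Subalgebra.inclusion hA').toAlgebra
  have hev : ∀ a : (A ⊔ O : Subalgebra k L),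
      evx A x (algebraMap (A ⊔ O : Subalgebra k L) (locx A x) a) = x' a := fun a => (hx'2 a).symm
  have hloc : IsLocalization.AtPrime (locx A x) (idl x') := by
    refine (isLocalization_iff _ _).2 ⟨?_, ?_, ?_⟩
    · intro y
      have hy : x' (y : (A ⊔ O : Subalgebra k L)) ≠ 0 := fun h => y.2 h
      rw [← hev] at hy
      by_contra hcon
      exact hy (mem_maxIdeal_iff.1 hcon)
    · intro z
      have hz : (z : L) ∈ locx (A ⊔ O) x' := by rw [heq]; exact z.2
      obtain ⟨b, c, hc, h⟩ := hz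
      exact ⟨(b, ⟨c, fun h' => hc h'⟩), Subtype.ext h⟩
    · intro a b h
      refine ⟨1, ?_⟩
      have h1 : (a : L) = b := congrArg (fun t : locx A x => (t : L)) h
      rw [Subtype.ext h1]
  have hmax : (idl x').map (algebraMap (A ⊔ O : Subalgebra k L) (locx A x)) =
      IsLocalRing.maximalIdeal (locx A x) := by
    apply le_antisymm
    · rw [Ideal.map_le_iff_le_comap]
      intro a ha
      rw [Ideal.mem_comap, mem_maxIdeal_iff, hev]
      exact ha
    · intro z hz
      have hz0 := mem_maxIdeal_iff.1 hz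
      obtain ⟨⟨b, c⟩, h⟩ := IsLocalization.surj (idl x').primeCompl z
      rw [IsLocalization.mem_map_algebraMap_iff (idl x').primeCompl]
      have hb : b ∈ idl x' := by
        rw [mem_idl, ← hev, ← h, map_mul, hz0, zero_mul]
      exact ⟨(⟨b, hb⟩, c), h⟩
  have hfg' : (A ⊔ O : Subalgebra k L).FG := hfg.sup hOfg
  have hspan : Ideal.span {a : locx A x | (a : L) ∈ O ∧ evx A x a = 0} ≤
      (Ideal.span {a : (A ⊔ O : Subalgebra k L) | (a : L) ∈ O ∧ x' a = 0}).map
        (algebraMap (A ⊔ O : Subalgebra k L) (locx A x)) := by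
    rw [Ideal.span_le]
    rintro a ⟨ha, ha0⟩
    have h1 : (⟨a, (le_sup_right : O ≤ A ⊔ O) ha⟩ : (A ⊔ O : Subalgebra k L)) ∈
        Ideal.span {a : (A ⊔ O : Subalgebra k L) | (a : L) ∈ O ∧ x' a = 0} := by
      apply Ideal.subset_span
      refine ⟨ha, ?_⟩
      rw [← hev]
      exact ha0
    exact Ideal.mem_map_of_mem (algebraMap (A ⊔ O : Subalgebra k L) (locx A x)) h1
  have hmain : idl x' ^ (s + 1) ≤
      Ideal.span {a : (A ⊔ O : Subalgebra k L) | (a : L) ∈ O ∧ x' a = 0} ⊔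
        idl x' ^ (s + 2) := by
    intro a ha
    have h1 : algebraMap (A ⊔ O : Subalgebra k L) (locx A x) a ∈
        (Ideal.span {a : (A ⊔ O : Subalgebra k L) | (a : L) ∈ O ∧ x' a = 0} ⊔
          idl x' ^ (s + 2)).map (algebraMap (A ⊔ O : Subalgebra k L) (locx A x)) := by
      rw [Ideal.map_sup, Ideal.map_pow, hmax]
      refine (sup_le_sup_right hspan _) (hnil ?_)
      rw [← hmax, ← Ideal.map_pow]
      exact Ideal.mem_map_of_mem _ ha
    rw [IsLocalization.mem_map_algebraMap_iff (idl x').primeCompl] at h1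
    obtain ⟨⟨b, c⟩, h2⟩ := h1
    refine mem_of_mul_mem (idl x') le_sup_right c.2 ?_
    have h3 : a * c = b := by
      apply Subtype.ext
      exact congrArg (fun t : locx A x => (t : L)) h2
    rw [h3]
    exact b.2
  have hnorm' : ncl (locx (A ⊔ O) x') ≤ locx (A ⊔ O) x' := by rw [heq]; exact hnorm
  obtain ⟨hC, hfin⟩ := zmt_locx hfg' hnorm' O le_sup_right s hmain
  have hC' : ncl O ≤ locx A x := heq ▸ hC
  refine ⟨hC', ?_⟩
  apply le_antisymm
  · rintro a ⟨b, c, hc, h⟩
    have hc0 : (c : L) ≠ 0 := ne_zero_of_ev hc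
    have h2 : ((⟨c, hC' c.2⟩ : locx A x) : L)⁻¹ ∈ locx A x := inv_mem_of_evx hc
    have h3 : a = (b : L) * (c : L)⁻¹ := by
      rw [← h, mul_inv_cancel_right₀ hc0]
    rw [h3]
    exact mul_mem (hC' b.2) h2
  · intro a ha
    rw [← heq, ← hfin] at ha
    obtain ⟨b, c, hc, h⟩ := ha
    refine ⟨b, c, ?_, h⟩
    intro h0
    apply hc
    -- both evaluations vanish exactly on non-units
    by_contra h4
    have h5 : (c : L)⁻¹ ∈ locx (A ⊔ O) x' :=
      inv_mem_of_evx (A := A ⊔ O) (x := x') (s := ⟨(c : L), hC c.2⟩) h4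
    rw [heq] at h5
    have hcL : (c : L) ≠ 0 := ne_zero_of_ev hc
    have h6 : (⟨c, hC' c.2⟩ : locx A x) * ⟨(c : L)⁻¹, h5⟩ = 1 :=
      Subtype.ext (mul_inv_cancel₀ hcL)
    have h7 := congrArg (evx A x) h6
    rw [map_mul, map_one] at h7
    have h8 : evx A x (⟨c, hC' c.2⟩ : locx A x) = 0 := h0
    rw [h8, zero_mul] at h7
    exact zero_ne_one h7

end

end Pool.Agent.TGJ88
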