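import Pool.Agent.Lib.TGJ_h88.NPt

/-!
# TANK G, block C, row R4: systems of parameters at a normal point
-/

set_option autoImplicit false

namespace Pool.Agent.TGJ

open Pool.Agent.TG (ncl le_ncl ncl_mono ncl_ncl)
open Pool.Agent.TGJ88

universe u

variable {k : Type u} [Field k]

section

variable {K : Type u} [Field K] [Algebra k K] {S : Subalgebra k K} {res : S →ₐ[k] k}

theorem icf_fg_kf {L : Type u} [Field L] [Algebra k L] {m : ℕ} (f : Fin m → L) :
    (kf k f).FG :=
  ⟨(Set.finite_range f).toFinset, by rw [Set.Finite.coe_toFinset]⟩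

theorem kf_le {n : ℕ} (f : Fin n → S) : kf k (fun i => (f i : K)) ≤ S :=
  Algebra.adjoin_le (by rintro _ ⟨i, rfl⟩; exact (f i).2)

/-- A proper system of parameters: the point is the local ring of a point of the integral closure
of `k[f]`. -/
theorem NPt.proper_zmt (h : NPt S res) {n : ℕ} {f : Fin n → S} (hf : Proper S.val res f) :
    ∃ hC : icf k (fun i => (f i : K)) ≤ S,
      locx (icf k fun i => (f i : K)) (res.comp (Subalgebra.inclusion hC)) = S := by
  obtain ⟨s, hs⟩ := hf.exists_pow_le h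
  refine h.zmt (kf k fun i => (f i : K)) (icf_fg_kf _) (kf_le f) s (hs.trans ?_)
  rw [Ideal.span_le]
  rintro _ ⟨i, rfl⟩
  exact Ideal.subset_span ⟨Algebra.subset_adjoin ⟨i, rfl⟩, hf.1 i⟩

theorem over0_comp {n : ℕ} {f : Fin n → S} (hf : ∀ i, res (f i) = 0)
    (hC : icf k (fun i => (f i : K)) ≤ S) :
    Over0 (fun i => (f i : K)) (res.comp (Subalgebra.inclusion hC)) := fun i => hf i

theorem doms_of_locx {n : ℕ} {f : Fin n → S} (hC : icf k (fun i => (f i : K)) ≤ S)
    (hfin : locx (icf k fun i => (f i : K)) (res.comp (Subalgebra.inclusion hC)) = S) :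
    Doms S.val res (fun i => (f i : K)) (res.comp (Subalgebra.inclusion hC)) := by
  intro s
  have hs : (s : K) ∈ locx (icf k fun i => (f i : K)) (res.comp (Subalgebra.inclusion hC)) := by
    rw [hfin]; exact s.2
  obtain ⟨b, c, hc, hsc⟩ := hs
  obtain ⟨x, hx⟩ : ∃ x, x = res.comp (Subalgebra.inclusion hC) := ⟨_, rfl⟩
  have hxe : ∀ a : icf k fun i => (f i : K), x a = res ⟨a, hC a.2⟩ := fun a => by rw [hx]; rfl
  rw [← hx] at hc ⊢
  refine ⟨(x c)⁻¹ • b, (x c)⁻¹ • c, ?_, ?_, ?_⟩
  · rw [map_smul, smul_eq_mul, inv_mul_cancel₀ hc]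
  · have h1 : ((x c)⁻¹ • (c : K)) = algebraMap k K (x c)⁻¹ * c := Algebra.smul_def _ _
    have h2 : ((x c)⁻¹ • (b : K)) = algebraMap k K (x c)⁻¹ * b := Algebra.smul_def _ _
    change (s : K) * ((x c)⁻¹ • (c : K)) = (x c)⁻¹ • (b : K)
    rw [h1, h2, ← hsc]
    ring
  · have h1 : (⟨b, hC b.2⟩ : S) = s * ⟨c, hC c.2⟩ := Subtype.ext hsc.symm
    rw [map_smul, smul_eq_mul, hxe b, h1, map_mul, ← hxe c, mul_comm (res s), ← mul_assoc,
      inv_mul_cancel₀ hc, one_mul]

/-- A point of the integral closure which dominates `S` is the residue map. -/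
theorem eq_of_doms {n : ℕ} {f : Fin n → S} (hC : icf k (fun i => (f i : K)) ≤ S)
    (x : icf k (fun i => (f i : K)) →ₐ[k] k) (hx : Doms S.val res (fun i => (f i : K)) x) :
    x = res.comp (Subalgebra.inclusion hC) := by
  refine AlgHom.ext fun a => ?_
  obtain ⟨a', b', hb', hab, ha'⟩ := hx ⟨a, hC a.2⟩
  have h1 : a * b' = a' := Subtype.ext hab
  have h2 := congrArg x h1
  rw [map_mul, hb', mul_one, ha'] at h2
  exact h2

/-- **R4**: the points over `f = 0` which dominate `S`: exactly one. -/
theorem NPt.exists_pt (h : NPt S res) {n : ℕ} {f : Fin n → S} (hf : Proper S.val res f) :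
    ∃ x : icf k (fun i => (f i : K)) →ₐ[k] k, Over0 _ x ∧ Doms S.val res _ x ∧
      locx _ x = S ∧ ∀ x', Doms S.val res _ x' → x' = x := by
  obtain ⟨hC, hfin⟩ := h.proper_zmt hf
  exact ⟨_, over0_comp hf.1 hC, doms_of_locx hC hfin, hfin, fun x' hx' => eq_of_doms hC x' hx'⟩

theorem NPt.Rho_eq (h : NPt S res) {n : ℕ} {f : Fin n → S} (hf : Proper S.val res f)
    {x : icf k (fun i => (f i : K)) →ₐ[k] k} (hx : Doms S.val res _ x) :
    Rho S.val res f = rho (fun i => (f i : K)) x := by
  obtain ⟨x', hx'0, hx'd, -, hu⟩ := h.exists_pt hf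
  obtain rfl := hu x hx
  rw [Rho]
  obtain ⟨y₀, hy₀⟩ : ∃ y₀ : icf k (fun i => S.val (f i)) →ₐ[k] k, y₀ = x := ⟨x, rfl⟩
  have h1 : {x' : icf k (fun i => S.val (f i)) →ₐ[k] k | Over0 _ x' ∧ Doms S.val res _ x'} =
      {y₀} := by
    ext y
    constructor
    · rintro ⟨-, hy⟩
      exact (hu y hy).trans hy₀.symm
    · intro hy
      rw [Set.mem_singleton_iff] at hy
      rw [hy, hy₀]
      exact ⟨hx'0, hx'd⟩
  rw [h1, finsum_mem_singleton, hy₀]
  rfl

/-- `K` is algebraic over `k[f]`. -/
theorem NPt.isAlgebraic (h : NPt S res) {n : ℕ} {f : Fin n → S} (hf : Proper S.val res f) (z : K) :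
    IsAlgebraic (kf k fun i => (f i : K)) z := by
  obtain ⟨hC, hfin⟩ := h.proper_zmt hf
  obtain ⟨a, b, hb, hab⟩ := h.frac z
  have hint : ∀ c : icf k (fun i => (f i : K)), IsIntegral (kf k fun i => (f i : K)) (c : K) :=
    fun c => c.2
  have hS : ∀ s : S, IsAlgebraic (kf k fun i => (f i : K)) (s : K) := by
    intro s
    have hs : (s : K) ∈ locx (icf k fun i => (f i : K)) (res.comp (Subalgebra.inclusion hC)) := by
      rw [hfin]; exact s.2
    obtain ⟨b, c, hc, hsc⟩ := hs
    have hc0 : (c : K) ≠ 0 := ne_zero_of_ev hc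
    have h1 : (s : K) = b * (c : K)⁻¹ := by rw [← hsc, mul_inv_cancel_right₀ hc0]
    rw [h1]
    exact (hint b).isAlgebraic.mul (hint c).isAlgebraic.inv
  have h1 : z = a * (b : K)⁻¹ := by rw [← hab, mul_inv_cancel_right₀ hb]
  rw [h1]
  exact (hS a).mul (hS b).inv

theorem NPt.isTranscendenceBasis (h : NPt S res) {n : ℕ} (hn : Algebra.trdeg k K = n)
    {f : Fin n → S} (hf : Proper S.val res f) :
    IsTranscendenceBasis k (fun i => (f i : K)) := by
  have halg : Algebra.IsAlgebraic (Algebra.adjoin k (Set.range fun i => (f i : K))) K :=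
    ⟨fun z => h.isAlgebraic hf z⟩
  exact Algebra.IsAlgebraic.isTranscendenceBasis_of_lift_le_trdeg_of_finite k _ (by
      rw [Cardinal.mk_fin, hn]
      simp)

/-- **R4**: the parameters are algebraically independent. -/
theorem NPt.algebraicIndependent (h : NPt S res) {n : ℕ} (hn : Algebra.trdeg k K = n)
    {f : Fin n → S} (hf : Proper S.val res f) :
    AlgebraicIndependent k (fun i => (f i : K)) :=
  (h.isTranscendenceBasis hn hf).1

theorem finiteDimensional_adjoin (hfg : (⊤ : IntermediateField k K).FG) {T : Set K}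
    (halg : ∀ z : K, IsAlgebraic (Algebra.adjoin k T) z) :
    FiniteDimensional (IntermediateField.adjoin k T) K := by
  obtain ⟨U, hU⟩ := hfg
  have halg' : ∀ z : K, IsIntegral (IntermediateField.adjoin k T) z := by
    intro z
    obtain ⟨p, hp, hpz⟩ := halg z
    have h2 : IsAlgebraic (IntermediateField.adjoin k T) z := by
      let ψ : Algebra.adjoin k T →+* IntermediateField.adjoin k T :=
        (Subalgebra.inclusion (IntermediateField.algebra_adjoin_le_adjoin k T) :
          Algebra.adjoin k T →ₐ[k] (IntermediateField.adjoin k T).toSubalgebra).toRingHom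
      have hψ : Function.Injective ψ := Subalgebra.inclusion_injective _
      refine ⟨p.map ψ, (Polynomial.map_ne_zero_iff hψ).2 hp, ?_⟩
      rw [Polynomial.aeval_def, Polynomial.eval₂_map]
      exact hpz
    exact h2.isIntegral
  have h1 : IntermediateField.adjoin (IntermediateField.adjoin k T) (U : Set K) = ⊤ := by
    rw [eq_top_iff]
    rintro z -
    have hz : z ∈ IntermediateField.adjoin k (U : Set K) := by rw [hU]; trivial
    have h2 : IntermediateField.adjoin k (U : Set K) ≤
        (IntermediateField.adjoin (IntermediateField.adjoin k T) (U : Set K)).restrictScalars k := by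
      rw [IntermediateField.adjoin_le_iff]
      exact IntermediateField.subset_adjoin _ _
    exact h2 hz
  have h3 : FiniteDimensional (IntermediateField.adjoin k T)
      (IntermediateField.adjoin (IntermediateField.adjoin k T) (U : Set K)) :=
    IntermediateField.finiteDimensional_adjoin fun z _ => halg' z
  rw [h1] at h3
  exact Module.Finite.equiv IntermediateField.topEquiv.toLinearEquiv

theorem NPt.finiteDimensional (h : NPt S res) {n : ℕ} {f : Fin n → S}
    (hf : Proper S.val res f) :
    FiniteDimensional (IntermediateField.adjoin k (Set.range fun i => (f i : K))) K :=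
  finiteDimensional_adjoin h.fg_top fun z => h.isAlgebraic hf z

end

end Pool.Agent.TGJ
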