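import Pool.Agent.Lib.TGJ_h88.Fin
import Pool.Agent.Lib.TGJ.DivS

/-!
# TANK G, block C, row R4: normal points
-/

set_option autoImplicit false

namespace Pool.Agent.TGJ

open Pool.Agent.TG (ncl le_ncl ncl_mono ncl_ncl)
open Pool.Agent.TGJ88

universe u

variable {k : Type u} [Field k]

section Basic

variable {K : Type u} [Field K] [Algebra k K] {S : Subalgebra k K} {res : S →ₐ[k] k}

/-- A normal point is the localisation of a finitely generated algebra at a `k`-point. -/
theorem NPt.exists_locx (h : NPt S res) : ∃ (A : Subalgebra k K) (x : A →ₐ[k] k), A.FG ∧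
    S = locx A x ∧ A ≤ S := by
  obtain ⟨A, hA, hAS, hs⟩ := h.fg
  refine ⟨A, res.comp (Subalgebra.inclusion hAS), hA, ?_, hAS⟩
  apply le_antisymm
  · intro s hsS
    obtain ⟨a, b, hb, hab⟩ := hs ⟨s, hsS⟩
    refine ⟨a, b, ?_, hab⟩
    change res (Subalgebra.inclusion hAS b) ≠ 0
    rw [hb]
    exact one_ne_zero
  · rintro s ⟨b, c, hc, hsc⟩
    have h1 : (c : K)⁻¹ ∈ S := h.inv (Subalgebra.inclusion hAS c) hc
    have hc0 : (c : K) ≠ 0 := ne_zero_of_ev hc
    have h2 : s = (b : K) * (c : K)⁻¹ := by rw [← hsc, mul_inv_cancel_right₀ hc0]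
    rw [h2]
    exact mul_mem (hAS b.2) h1

theorem NPt.isUnit (h : NPt S res) {a : S} (ha : res a ≠ 0) : IsUnit a := by
  rw [isUnit_iff_exists_inv]
  have h0 : (a : K) ≠ 0 := by
    intro h0
    apply ha
    rw [show a = 0 from Subtype.ext h0, map_zero]
  exact ⟨⟨_, h.inv a ha⟩, Subtype.ext (mul_inv_cancel₀ h0)⟩

theorem res_surjective (res : S →ₐ[k] k) : Function.Surjective res := fun r =>
  ⟨algebraMap k S r, by rw [AlgHom.commutes]; rfl⟩

theorem ker_res_ne_top (res : S →ₐ[k] k) : RingHom.ker res ≠ ⊤ := by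
  intro h
  have h1 : (1 : S) ∈ RingHom.ker res := by rw [h]; trivial
  rw [RingHom.mem_ker, map_one] at h1
  exact one_ne_zero h1

instance ker_res_maximal (res : S →ₐ[k] k) : (RingHom.ker res).IsMaximal :=
  RingHom.ker_isMaximal_of_surjective _ (res_surjective res)

theorem NPt.isLocalRing (h : NPt S res) : IsLocalRing S := by
  refine IsLocalRing.of_nonunits_add fun a b ha hb => ?_
  rw [mem_nonunits_iff] at ha hb ⊢
  intro hab
  have ha0 : res a = 0 := by by_contra h0; exact ha (h.isUnit h0)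
  have hb0 : res b = 0 := by by_contra h0; exact hb (h.isUnit h0)
  have h1 := (hab.map res).ne_zero
  rw [map_add, ha0, hb0, add_zero] at h1
  exact h1 rfl

theorem NPt.maximalIdeal_eq (h : NPt S res) :
    haveI := h.isLocalRing; IsLocalRing.maximalIdeal S = RingHom.ker res := by
  have := h.isLocalRing
  exact (IsLocalRing.eq_maximalIdeal (ker_res_maximal res)).symm

theorem NPt.le_ker (h : NPt S res) (Q : Ideal S) (hQ : Q ≠ ⊤) : Q ≤ RingHom.ker res := by
  intro a ha
  rw [RingHom.mem_ker]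
  by_contra h0
  exact hQ (Ideal.eq_top_of_isUnit_mem _ ha (h.isUnit h0))

/-- The residue map of a normal point is unique. -/
theorem NPt.res_unique (h : NPt S res) (res' : S →ₐ[k] k) : res' = res := by
  refine AlgHom.ext fun a => ?_
  have h1 : a - algebraMap k S (res' a) ∈ RingHom.ker res' := by
    rw [RingHom.mem_ker, map_sub, AlgHom.commutes]
    exact sub_self _
  have h2 := h.le_ker _ (ker_res_ne_top res') h1
  rw [RingHom.mem_ker, map_sub, AlgHom.commutes, sub_eq_zero] at h2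
  exact h2.symm

theorem NPt.ncl_le (h : NPt S res) : ncl S ≤ S := fun a ha => h.ic a ha

/-- `K` is a finitely generated field. -/
theorem fg_top_of_frac {A : Subalgebra k K} (hA : A.FG)
    (hfrac : ∀ f : K, ∃ a b : A, (b : K) ≠ 0 ∧ f * b = a) : (⊤ : IntermediateField k K).FG := by
  obtain ⟨T, hT⟩ := hA
  refine ⟨T, ?_⟩
  rw [eq_top_iff]
  rintro f -
  obtain ⟨a, b, hb, hab⟩ := hfrac f
  have hle : A ≤ (IntermediateField.adjoin k (T : Set K)).toSubalgebra := by
    rw [← hT]
    exact Algebra.adjoin_le (IntermediateField.subset_adjoin k _)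
  have h1 : f = (a : K) / b := by rw [← hab, mul_div_cancel_right₀ _ hb]
  rw [h1]
  exact div_mem (hle a.2) (hle b.2)

theorem locx_frac {A : Subalgebra k K} {x : A →ₐ[k] k}
    (hfrac : ∀ f : K, ∃ a b : locx A x, (b : K) ≠ 0 ∧ f * b = a) (f : K) :
    ∃ a b : A, (b : K) ≠ 0 ∧ f * b = a := by
  obtain ⟨⟨a, a1, a2, ha2, ha⟩, ⟨b, b1, b2, hb2, hb⟩, hb0, hab⟩ := hfrac f
  have ha20 : (a2 : K) ≠ 0 := ne_zero_of_ev ha2
  have hb20 : (b2 : K) ≠ 0 := ne_zero_of_ev hb2
  have hb10 : (b1 : K) ≠ 0 := by rw [← hb]; exact mul_ne_zero hb0 hb20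
  refine ⟨a1 * b2, b1 * a2, ?_, ?_⟩
  · push_cast
    exact mul_ne_zero hb10 ha20
  · push_cast
    rw [← hb, ← ha]
    have hab' : f * b = a := hab
    rw [← hab']
    ring

theorem NPt.fg_top (h : NPt S res) : (⊤ : IntermediateField k K).FG := by
  obtain ⟨A, x, hA, rfl, -⟩ := h.exists_locx
  exact fg_top_of_frac hA (locx_frac h.frac)

/-- The other primes: `Proper` is a radical condition. -/
theorem Proper.exists_pow_le (h : NPt S res) {m : ℕ} {f : Fin m → S} (hf : Proper S.val res f) :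
    ∃ s : ℕ, RingHom.ker res ^ s ≤ Ideal.span (Set.range f) := by
  have := h.isNoetherianRing
  refine Ideal.exists_pow_le_of_le_radical_of_fg ?_ (IsNoetherian.noetherian _)
  intro a ha
  rw [Ideal.radical_eq_sInf, Submodule.mem_sInf]
  rintro Q ⟨hQf, hQ⟩
  rw [hf.2 Q hQ ?_ fun i => hQf (Ideal.subset_span ⟨i, rfl⟩)]
  · exact ha
  · have h1 : RingHom.ker (S.val) = ⊥ := by
      rw [← RingHom.injective_iff_ker_eq_bot]
      exact Subtype.val_injective
    rw [h1]
    exact bot_le

/-- **Zariski's main theorem** for a normal point. -/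
theorem NPt.zmt (h : NPt S res) (O : Subalgebra k K) (hOfg : O.FG) (hO : O ≤ S) (s : ℕ)
    (hnil : RingHom.ker res ^ s ≤ Ideal.span {a : S | (a : K) ∈ O ∧ res a = 0}) :
    ∃ hC : ncl O ≤ S, locx (ncl O) (res.comp (Subalgebra.inclusion hC)) = S := by
  obtain ⟨A, x, hA, rfl, hAS⟩ := h.exists_locx
  have hres : evx A x = res := (h.res_unique _)
  have hmax : IsLocalRing.maximalIdeal (locx A x) = RingHom.ker res := by
    ext a
    rw [mem_maxIdeal_iff, hres]
    rfl
  obtain ⟨hC, hfin⟩ := zmt_loc hA h.ncl_le O hOfg hO s (by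
    rw [hmax, hres]
    refine le_sup_of_le_left (le_trans (Ideal.pow_le_pow_right (Nat.le_succ s)) hnil))
  rw [hres] at hfin
  exact ⟨hC, hfin⟩

end Basic

end Pool.Agent.TGJ
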