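import Pool.Agent.Lib.TGJ_h88.Pts
import Pool.Agent.Lib.TG_h82.Pts

/-!
# TANK G, block C, row R4: systems of parameters and the points of the integral closure
-/

set_option autoImplicit false

namespace Pool.Agent.TGJ

open Pool.Agent.TG (ncl le_ncl ncl_mono ncl_ncl)
open Pool.Agent.TGJ88

universe u

variable {k : Type u} [Field k] {S : Type u} [CommRing S] [Algebra k S] {L : Type u} [Field L]
  [Algebra k L] {φ : S →ₐ[k] L} {res : S →ₐ[k] k}

theorem toB_isIntegral (φ : S →ₐ[k] L) : (toB φ).toRingHom.IsIntegral := by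
  intro z
  let _ : Algebra S L := φ.toRingHom.toAlgebra
  let _ : Algebra S φ.range := φ.rangeRestrict.toRingHom.toAlgebra
  have ht2 : IsScalarTower S φ.range L := IsScalarTower.of_algebraMap_eq fun _ => rfl
  have hint : Algebra.IsIntegral S φ.range := ⟨fun c => by
    obtain ⟨s, rfl⟩ := φ.rangeRestrict_surjective c
    exact isIntegral_algebraMap (R := S) (A := φ.range) (x := s)⟩
  have hz1 : IsIntegral S (z : L) := isIntegral_trans (R := S) (A := φ.range) (z : L) z.2
  obtain ⟨p, hp, hpz⟩ := hz1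
  refine ⟨p, hp, Subtype.ext ?_⟩
  have h1 : (((Polynomial.eval₂ (toB φ).toRingHom z p : Bn φ)) : L) =
      Polynomial.eval₂ ((Bn φ).val.toRingHom.comp (toB φ).toRingHom) (z : L) p :=
    Polynomial.hom_eval₂ p (toB φ).toRingHom (Bn φ).val.toRingHom z
  rw [h1]
  exact hpz

theorem toB_range_isIntegral (φ : S →ₐ[k] L) (z : Bn φ) : IsIntegral (toB φ).range z := by
  obtain ⟨p, hp, hpz⟩ := toB_isIntegral φ z
  refine ⟨p.map (toB φ).rangeRestrict.toRingHom, hp.map _, ?_⟩
  rw [Polynomial.eval₂_map]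
  exact hpz

theorem ker_toB (φ : S →ₐ[k] L) {a : S} : toB φ a = 0 ↔ φ a = 0 := by
  rw [Subtype.ext_iff]
  rfl

/-- A proper system of parameters of `S / ker φ` is proper at the points of the integral
closure. -/
theorem proper_y {m : ℕ} {f : Fin m → S} (hp : Proper φ res f) {y : Bn φ →ₐ[k] k}
    (hy : IsY φ res y) :
    Proper (locx (Bn φ) y).val (evx (Bn φ) y) (fun i => toP φ y (f i)) := by
  refine ⟨fun i => by rw [evx_toP hy]; exact hp.1 i, fun Q hQ _ hQf => ?_⟩
  obtain ⟨Q', hQ'⟩ : ∃ Q', Q' = Q.comap (algebraMap (Bn φ) (locx (Bn φ) y)) := ⟨_, rfl⟩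
  have hQ'p : Q'.IsPrime := by rw [hQ']; exact Ideal.IsPrime.comap _
  obtain ⟨Q₂, hQ₂⟩ : ∃ Q₂, Q₂ = Q'.comap (toB φ).toRingHom := ⟨_, rfl⟩
  have hQ₂p : Q₂.IsPrime := by rw [hQ₂]; exact Ideal.IsPrime.comap _
  have h1 : Q₂ = RingHom.ker res := by
    refine hp.2 Q₂ hQ₂p (fun a ha => ?_) fun i => ?_
    · rw [hQ₂, Ideal.mem_comap]
      have : (toB φ).toRingHom a = 0 := (ker_toB φ).2 ha
      rw [this]
      exact Q'.zero_mem
    · rw [hQ₂, Ideal.mem_comap, hQ', Ideal.mem_comap]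
      exact hQf i
  have hmax : Q'.IsMaximal := by
    refine Ideal.isMaximal_of_isIntegral_of_isMaximal_comap' (toB φ).toRingHom
      (toB_isIntegral φ) Q' ?_
    rw [← hQ₂, h1]
    exact RingHom.ker_isMaximal_of_surjective _ fun r => ⟨algebraMap k S r, by
      rw [AlgHom.commutes]; rfl⟩
  -- units
  have hunit : ∀ a : locx (Bn φ) y, a ∈ Q → evx (Bn φ) y a = 0 := by
    intro a ha
    by_contra h0
    have h2 := inv_mem_of_evx h0
    apply hQ.ne_top
    rw [Ideal.eq_top_iff_one]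
    have h3 : (1 : locx (Bn φ) y) = a * ⟨(a : L)⁻¹, h2⟩ := by
      refine Subtype.ext (mul_inv_cancel₀ fun h4 => h0 ?_).symm
      rw [show a = 0 from Subtype.ext h4, map_zero]
    rw [h3]
    exact Q.mul_mem_right _ ha
  have hQ'y : Q' = idl y := by
    refine hmax.eq_of_le (maxIdl (x := y)).ne_top fun b hb => ?_
    rw [hQ', Ideal.mem_comap] at hb
    have h2 := hunit _ hb
    rw [evx_coe] at h2
    exact h2
  refine le_antisymm (fun a ha => hunit a ha) fun a ha => ?_
  obtain ⟨b, c, hc, hab⟩ := a.2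
  have h2 : a * algebraMap (Bn φ) (locx (Bn φ) y) c = algebraMap (Bn φ) (locx (Bn φ) y) b :=
    Subtype.ext hab
  have ha0 : evx (Bn φ) y a = 0 := ha
  have hb0 : y b = 0 := by
    rw [← evx_coe (x := y), ← h2, map_mul, ha0, zero_mul]
  have hbQ : b ∈ Q' := by rw [hQ'y]; exact hb0
  have h3 : a * algebraMap (Bn φ) (locx (Bn φ) y) c ∈ Q := by
    rw [h2]
    rw [hQ'] at hbQ
    exact hbQ
  rcases hQ.mem_or_mem h3 with h4 | h4
  · exact h4
  · exact absurd ((evx_coe (x := y) c).symm.trans (hunit _ h4)) hc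

variable [IsAlgClosed k]

/-- Conversely, a system of parameters at all points of the integral closure is proper. -/
theorem proper_of_y (hu : ∀ s, res s ≠ 0 → IsUnit s) {m : ℕ} {f : Fin m → S}
    (hf : ∀ i, res (f i) = 0)
    (hp : ∀ y, IsY φ res y →
      Proper (locx (Bn φ) y).val (evx (Bn φ) y) (fun i => toP φ y (f i))) : Proper φ res f := by
  refine ⟨hf, fun Q hQ hker hQf => ?_⟩
  let _ : Algebra S (Bn φ) := (toB φ).toRingHom.toAlgebra
  have hint : Algebra.IsIntegral S (Bn φ) := ⟨toB_isIntegral φ⟩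
  obtain ⟨Q', -, hQ'p, hQ'⟩ := Ideal.exists_ideal_over_prime_of_isIntegral Q (⊥ : Ideal (Bn φ))
    (fun a ha => hker ((ker_toB φ).1 ha))
  obtain ⟨N, hN, hQN⟩ := Ideal.exists_le_maximal Q' hQ'p.ne_top
  have hNc : (N.comap (toB φ).toRingHom) = RingHom.ker res := by
    have h1 : (N.comap (algebraMap S (Bn φ))).IsMaximal :=
      Ideal.isMaximal_comap_of_isIntegral_of_isMaximal N
    have hmaxr : (RingHom.ker res).IsMaximal :=
      RingHom.ker_isMaximal_of_surjective _ fun r => ⟨algebraMap k S r, by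
        rw [AlgHom.commutes]; rfl⟩
    refine h1.eq_of_le hmaxr.ne_top fun a ha => ?_
    rw [RingHom.mem_ker]
    by_contra h0
    exact h1.ne_top (Ideal.eq_top_of_isUnit_mem _ ha (hu a h0))
  have hNp := hN.isPrime
  obtain ⟨y, hy, hyN⟩ := Pool.Agent.TG82.exists_of_prime (toB φ) (toB_range_isIntegral φ) res N hNc
  have hdisj : Disjoint ((idl y).primeCompl : Set (Bn φ)) Q' := by
    rw [Set.disjoint_left]
    intro a ha haQ
    exact ha ((hyN a).2 (hQN haQ))
  have hQP := IsLocalization.isPrime_of_isPrime_disjoint (idl y).primeCompl (locx (Bn φ) y) Q'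
    hQ'p hdisj
  have hcomap := IsLocalization.under_map_of_isPrime_disjoint (idl y).primeCompl (locx (Bn φ) y)
    hQ'p hdisj
  have h1 := (hp y hy).2 _ hQP (by
    have h2 : RingHom.ker (locx (Bn φ) y).val = ⊥ := by
      rw [← RingHom.injective_iff_ker_eq_bot]
      exact Subtype.val_injective
    rw [h2]
    exact bot_le) fun i => by
      have h3 : f i ∈ Q'.comap (algebraMap S (Bn φ)) := by rw [hQ']; exact hQf i
      exact Ideal.mem_map_of_mem (algebraMap (Bn φ) (locx (Bn φ) y)) h3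
  have h4 : Q' = idl y := by
    rw [← hcomap, h1]
    ext b
    rw [Ideal.under_def, Ideal.mem_comap, RingHom.mem_ker, mem_idl]
    exact (evx_coe (x := y) b).congr_left
  rw [← hQ', h4]
  ext s
  rw [Ideal.mem_comap, mem_idl, RingHom.mem_ker, ← hy]
  rfl

end Pool.Agent.TGJ
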