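import Pool.Agent.Lib.TGJ_h88.F2b
import Pool.Agent.Lib.TG_h82.F1
import Pool.Agent.Lib.TGJ_h12.Compl2

/-!
# TANK G, block C: F2
-/

set_option autoImplicit false

namespace Pool.Agent.TGJ

open Pool.Agent.TGJ88

universe u

theorem extAll (k : Type u) [Field k] [IsAlgClosed k] : ExtAll k :=
  fun K _ _ S res h V hV v' hv' hker =>
    exists_ext_y h.locK (fracOf_residue (cen S V)) v' hv' hker

/-- **F2.** -/
theorem f2 (k K : Type u) [Field k] [Field K] [Algebra k K] : F2 k K := by
  intro hk
  exact f2_of (extAll k) (fun K => f1 k K) K hk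

end Pool.Agent.TGJ
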