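import Pool.Agent.Lib.TGJ_h88.Pts3
import Pool.Agent.Lib.TGJ.ThmC1

/-!
# TANK G, block C: F2, from the points of the integral closure to the local ring
-/

set_option autoImplicit false

namespace Pool.Agent.TGJ

open Pool.Agent.TGJ88
open scoped WithZero

universe u

variable {k : Type u} [Field k] {S : Type u} [CommRing S] [Algebra k S] {L : Type u} [Field L]
  [Algebra k L] {φ : S →ₐ[k] L} {res : S →ₐ[k] k}

/-- Completeness (helper12): every place of a curve extends to a point of the integral closure. -/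
def ExtY (φ : S →ₐ[k] L) (res : S →ₐ[k] k) : Prop :=
  ∀ v' : Valuation S ℤᵐ⁰, IsCv res v' → (∀ a, φ a = 0 → v' a = 0) →
    ∃ y : Bn φ →ₐ[k] k, IsY φ res y ∧ ∃ v'' : Valuation (locx (Bn φ) y) ℤᵐ⁰,
      IsCv (evx (Bn φ) y) v'' ∧ (v''.comap (toP φ y).toRingHom).IsEquiv v'

theorem toP_cons (y : Bn φ →ₐ[k] k) {m : ℕ} (g : S) (w : Fin m → S) :
    (fun i => toP φ y ((Fin.cons g w : Fin (m + 1) → S) i)) =
      (Fin.cons (toP φ y g) (fun i => toP φ y (w i)) : Fin (m + 1) → locx (Bn φ) y) := by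
  funext i
  refine Fin.cases ?_ (fun j => ?_) i
  · rfl
  · rfl

variable [IsAlgClosed k]

theorem hasCv_of_points (hext : ExtY φ res) (hL : LocK res) (hfr : FracOf φ) {m : ℕ}
    (w : Fin m → S) (g₀ : S) (hp : Proper φ res (Fin.cons g₀ w : Fin (m + 1) → S))
    (hpt : ∀ y, IsY φ res y →
      HasCv (locx (Bn φ) y).val (evx (Bn φ) y) (fun i => toP φ y (w i))) : HasCv φ res w := by
  classical
  have hfinY : Finite {y // IsY φ res y} := finite_y hL hfr hp
  obtain ⟨n, ⟨e'⟩⟩ := Finite.exists_equiv_fin {y // IsY φ res y}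
  let e := e'.symm
  have hpt' := fun i : Fin n => hpt (e i).1 (e i).2
  choose J hJ μ v hprop hcomp hiff hsum using hpt'
  have hpcons : ∀ (g : S), Proper φ res (Fin.cons g w : Fin (m + 1) → S) → ∀ y, IsY φ res y →
      Proper (locx (Bn φ) y).val (evx (Bn φ) y)
        (Fin.cons (toP φ y g) (fun i => toP φ y (w i)) : Fin (m + 1) → locx (Bn φ) y) := by
    intro g hg y hy
    rw [← toP_cons]
    exact proper_y hg hy
  have hres0 : ∀ g, res g = 0 → ∀ i, evx (Bn φ) (e i).1 (toP φ (e i).1 g) = 0 := fun g hg i => by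
    rw [evx_toP (e i).2, hg]
  refine ⟨Σ i : Fin n, J i, inferInstance, fun j => μ j.1 j.2,
    fun j => (v j.1 j.2).comap (toP φ (e j.1).1).toRingHom, ?_, ?_, ?_, ?_⟩
  · rintro ⟨i, j⟩
    obtain ⟨h1, h2, h3, h4⟩ := hprop i j
    refine ⟨h1, ⟨fun a => h2.le (toP φ (e i).1 a), fun a ha => h2.lt (toP φ (e i).1 a)
      (hres0 a ha i), fun a ha => h2.one (toP φ (e i).1 a) (by rw [evx_toP (e i).2]; exact ha),
      g₀, hp.1 0, ?_⟩, fun a ha => ?_, fun l => h4 l⟩
    · have h5 := (hiff i (toP φ (e i).1 g₀) (hres0 g₀ (hp.1 0) i)).1 (hpcons g₀ hp _ (e i).2)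
      exact h5 j
    · have h5 : toP φ (e i).1 a = 0 := Subtype.ext ha
      change (v i j) (toP φ (e i).1 a) = 0
      rw [h5, map_zero]
  · intro v' hv' hker hw
    obtain ⟨y, hy, v'', hv'', heq⟩ := hext v' hv' hker
    obtain ⟨i, hi⟩ := e.surjective ⟨y, hy⟩
    have hiy : (e i).1 = y := by rw [hi]
    subst hiy
    obtain ⟨j, hj⟩ := hcomp i v'' hv'' (fun a ha => by
      have : a = 0 := Subtype.ext ha
      rw [this, map_zero]) (fun l => by
        have h1 := (heq.eq_zero (r := w l)).2 (hw l)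
        exact h1)
    exact ⟨⟨i, j⟩, heq.symm.trans (hj.comap _)⟩
  · intro g hg
    constructor
    · rintro h1 ⟨i, j⟩
      exact (hiff i (toP φ (e i).1 g) (hres0 g hg i)).1 (hpcons g h1 _ (e i).2) j
    · intro h1
      refine proper_of_y hL.unit (fun i => ?_) fun y hy => ?_
      · refine Fin.cases hg (fun l => ?_) i
        exact hp.1 l.succ
      · obtain ⟨i, hi⟩ := e.surjective ⟨y, hy⟩
        have hiy : (e i).1 = y := by rw [hi]
        subst hiy
        rw [toP_cons]
        exact (hiff i (toP φ (e i).1 g) (hres0 g hg i)).2 fun j => h1 ⟨i, j⟩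
  · intro g hg hv
    have h1 : Proper φ res (Fin.cons g w : Fin (m + 1) → S) := by
      refine proper_of_y hL.unit (fun i => ?_) fun y hy => ?_
      · refine Fin.cases hg (fun l => ?_) i
        exact hp.1 l.succ
      · obtain ⟨i, hi⟩ := e.surjective ⟨y, hy⟩
        have hiy : (e i).1 = y := by rw [hi]
        subst hiy
        rw [toP_cons]
        exact (hiff i (toP φ (e i).1 g) (hres0 g hg i)).2 fun j => hv ⟨i, j⟩
    rw [Rho_eq_finsum hL hfr h1, ← finsum_comp_equiv e, finsum_eq_sum_of_fintype,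
      Fintype.sum_sigma]
    refine Finset.sum_congr rfl fun i _ => ?_
    rw [toP_cons]
    exact hsum i (toP φ (e i).1 g) (hres0 g hg i) fun j => hv ⟨i, j⟩

end Pool.Agent.TGJ
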