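import Pool.Agent.Lib.TGJ_h88.F2a
import Pool.Agent.Lib.TGJ.DVR0
import Pool.Agent.Lib.TGJ.TrDiv
import Pool.Agent.Lib.TGJ.ResCorr
import Pool.Agent.Lib.TGJ_h49.RhoPos
import Pool.Agent.Lib.TGJ.ThmC1

/-!
# TANK G, block C: F2 from F1
-/

set_option autoImplicit false

namespace Pool.Agent.TGJ

open Pool.Agent.TGJ88
open Pool.Agent.TGh4 (Disc ordV lt_one_iff ordV_nonneg_of_mem)
open scoped WithZero

universe u

theorem proper_congr_range {k S L : Type u} [Field k] [CommRing S] [Algebra k S] [Field L]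
    [Algebra k L] {φ : S →ₐ[k] L} {res : S →ₐ[k] k} {m m' : ℕ} {f : Fin m → S} {f' : Fin m' → S}
    (h : Set.range f = Set.range f') (hf : Proper φ res f) : Proper φ res f' := by
  refine ⟨fun i => ?_, fun Q hQ hker hQf => hf.2 Q hQ hker fun i => ?_⟩
  · have h1 : f' i ∈ Set.range f := by rw [h]; exact ⟨i, rfl⟩
    obtain ⟨j, hj⟩ := h1
    rw [← hj]
    exact hf.1 j
  · have h1 : f i ∈ Set.range f' := by rw [← h]; exact ⟨i, rfl⟩
    obtain ⟨j, hj⟩ := h1
    rw [← hj]
    exact hQf j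

theorem range_cons_cons {S : Type u} {m : ℕ} (g : S) (w : Fin (m + 1) → S) :
    Set.range (Fin.cons g w : Fin (m + 2) → S) =
      Set.range (Fin.cons (w 0) (Fin.cons g (fun i => w i.succ) : Fin (m + 1) → S) :
        Fin (m + 2) → S) := by
  ext a
  constructor
  · rintro ⟨i, rfl⟩
    refine Fin.cases ?_ (fun j => ?_) i
    · exact ⟨1, rfl⟩
    · refine Fin.cases ?_ (fun l => ?_) j
      · exact ⟨0, rfl⟩
      · exact ⟨l.succ.succ, rfl⟩
  · rintro ⟨i, rfl⟩
    refine Fin.cases ?_ (fun j => ?_) i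
    · exact ⟨1, rfl⟩
    · refine Fin.cases ?_ (fun l => ?_) j
      · exact ⟨0, rfl⟩
      · exact ⟨l.succ.succ, rfl⟩

section

variable {k K : Type u} [Field k] [Field K] [Algebra k K] {S : Subalgebra k K} {res : S →ₐ[k] k}

theorem NPt.locK (h : NPt S res) : LocK res := by
  refine ⟨fun s hs => h.isUnit hs, ?_⟩
  obtain ⟨A, hA, hAS, hs⟩ := h.fg
  refine ⟨A.comap S.val, ?_, fun s => ?_⟩
  · refine Subalgebra.fg_of_fg_map (A.comap S.val) S.val Subtype.val_injective ?_
    have h1 : (A.comap S.val).map S.val = A := by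
      apply le_antisymm
      · rintro _ ⟨a, ha, rfl⟩
        exact ha
      · intro a ha
        exact ⟨⟨a, hAS ha⟩, ha, rfl⟩
    rw [h1]
    exact hA
  · obtain ⟨a, b, hb, hab⟩ := hs s
    exact ⟨⟨⟨a, hAS a.2⟩, a.2⟩, ⟨⟨b, hAS b.2⟩, b.2⟩, hb, Subtype.ext hab⟩

/-- Completeness for all residue fields. -/
def ExtAll (k : Type u) [Field k] : Prop :=
  ∀ (K : Type u) [Field K] [Algebra k K] (S : Subalgebra k K) (res : S →ₐ[k] k), NPt S res →
    ∀ V, IsDiv S V → ExtY (toRes S V) res

/-- The base case: curves. -/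
theorem hasCv_zero (hk : IsAlgClosed k) (hF1 : F1 k K) (h : NPt S res)
    (htr : Algebra.trdeg k K = (0 + 1 : ℕ)) (w : Fin 0 → S) : HasCv S.val res w := by
  have htr1 : Algebra.trdeg k K = 1 := by rw [htr]; simp
  obtain ⟨v, hv, hne, heq, hord⟩ := dvr0 h htr1
  obtain ⟨t, ht, ht0⟩ := h.exists_ne (by rw [htr1]; exact one_ne_zero)
  have hprop : ∀ g : S, res g = 0 →
      (Proper S.val res (Fin.cons g w : Fin (0 + 1) → S) ↔ v g ≠ 0) := by
    intro g hg
    rw [hne g]
    constructor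
    · rintro hp rfl
      have h1 := hp.2 ⊥ Ideal.isPrime_bot (by
        rw [(RingHom.injective_iff_ker_eq_bot _).1 Subtype.val_injective]) (fun i => by
          obtain rfl : i = 0 := Fin.ext (by omega)
          exact Ideal.zero_mem _)
      have h2 : t ∈ RingHom.ker res := ht
      rw [← h1] at h2
      exact ht0 h2
    · intro hg0
      refine ⟨fun i => by
        obtain rfl : i = 0 := Fin.ext (by omega)
        exact hg, fun Q hQ _ hQf => ?_⟩
      have h1 : g ∈ Q := hQf 0
      exact h.prime_eq htr1 Q (fun h2 => hg0 (by rw [h2] at h1; exact h1))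
  -- the divisor
  have hpt := (hprop t ht).2 ((hne t).2 ht0)
  obtain ⟨V, hV, htV, -⟩ := h.exists_isDiv_le (RingHom.ker res) t ht ht0
  have hcenV : ∀ V', IsDiv S V' → V' = V := by
    intro V' hV'
    have := h.isFractionRing
    have h1 : ∀ W, IsDiv S W → cen S W = RingHom.ker res := fun W hW =>
      h.prime_eq htr1 (cen S W) hW.cen_ne_bot
    exact hV'.eq_of_cen hV ((h1 V' hV').trans (h1 V hV).symm)
  have hset : {V : ValuationSubring K | IsDiv S V} = {V} := by
    ext V'
    exact ⟨fun h1 => hcenV V' h1, fun h1 => by rw [Set.mem_singleton_iff] at h1; rw [h1]; exact hV⟩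
  have hsum : ∀ g : S, Proper S.val res (Fin.cons g w : Fin (0 + 1) → S) →
      Rho S.val res (Fin.cons g w : Fin (0 + 1) → S) = (ordV V (g : K)).toNat * RhoV S V res w := by
    intro g hg
    have h1 := (hF1 hk S res h 0 htr g w hg).2
    rw [h1, hset, finsum_mem_singleton]
  have hpos : 0 < RhoV S V res w := by
    have h1 := TGBC49.rhoPos k K hk S res h 1 (by rw [htr]) _ hpt
    rw [hsum t hpt] at h1
    exact Nat.pos_of_mul_pos_left h1
  refine ⟨Unit, inferInstance, fun _ => RhoV S V res w, fun _ => v,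
    fun _ => ⟨hpos, hv, fun a ha => ?_, fun i => i.elim0⟩, fun v' hv' _ _ => ⟨(), heq v' hv'⟩,
    fun g hg => ?_, fun g hg hvg => ?_⟩
  · have h1 : a = 0 := Subtype.ext ha
    rw [h1, map_zero]
  · rw [hprop g hg]
    exact ⟨fun h1 _ => h1, fun h1 => h1 ()⟩
  · have h1 := hvg ()
    rw [hsum g ((hprop g hg).2 h1), Finset.univ_unique, Finset.sum_singleton,
      hord V hV g ((hne g).1 h1), mul_comm]

/-- The induction step. -/
theorem hasCv_succ (hk : IsAlgClosed k) (hF1 : F1 k K) (h : NPt S res) {m : ℕ}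
    (htr : Algebra.trdeg k K = (m + 1 + 1 : ℕ)) (w : Fin (m + 1) → S) (g₀ : S)
    (hp : Proper S.val res (Fin.cons g₀ w : Fin (m + 1 + 1) → S))
    (hV : ∀ V, IsDiv S V → w 0 ∈ cen S V →
      ProperV S V res (Fin.cons g₀ (fun i => w i.succ) : Fin (m + 1) → S) →
      HasCv (toRes S V) res (fun i : Fin m => w i.succ)) : HasCv S.val res w := by
  classical
  have hswap : ∀ g : S, Proper S.val res (Fin.cons g w : Fin (m + 1 + 1) → S) →
      Proper S.val res (Fin.cons (w 0) (Fin.cons g (fun i => w i.succ) : Fin (m + 1) → S) :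
        Fin (m + 1 + 1) → S) := fun g hg => proper_congr_range (range_cons_cons g w) hg
  have hpV : ∀ g : S, Proper S.val res (Fin.cons g w : Fin (m + 1 + 1) → S) → ∀ V, IsDiv S V →
      w 0 ∈ cen S V → ProperV S V res (Fin.cons g (fun i => w i.succ) : Fin (m + 1) → S) :=
    fun g hg => (hF1 hk S res h (m + 1) htr (w 0) _ (hswap g hg)).1
  have hw0 : w 0 ≠ 0 := by
    have h1 := (h.algebraicIndependent htr hp).ne_zero (Fin.succ 0)
    intro h2
    apply h1
    change ((w 0 : S) : K) = 0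
    rw [h2]
    rfl
  have hfin : {V : ValuationSubring K | IsDiv S V ∧ w 0 ∈ cen S V}.Finite := h.finite_div _ hw0
  have hfin' : Finite {V : ValuationSubring K // IsDiv S V ∧ w 0 ∈ cen S V} := hfin
  obtain ⟨n, ⟨e'⟩⟩ :=
    Finite.exists_equiv_fin {V : ValuationSubring K // IsDiv S V ∧ w 0 ∈ cen S V}
  let e := e'.symm
  have hpt := fun i : Fin n => hV (e i).1 (e i).2.1 (e i).2.2 (hpV g₀ hp _ (e i).2.1 (e i).2.2)
  choose J hJ μ v hprop hcomp hiff hsum using hpt
  have hord : ∀ i, 0 < (ordV (e i).1 (w 0 : K)).toNat := by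
    intro i
    have h1 := ((e i).2.1.mem_cen (w 0)).1 (e i).2.2
    have h2 : (w 0 : K) ≠ 0 := fun h3 => hw0 (Subtype.ext h3)
    have h3 := (lt_one_iff (e i).2.1.disc h2).1 h1
    omega
  have hwi : ∀ i (j : J i) (l : Fin (m + 1)), v i j (w l) = 0 := by
    intro i j l
    refine Fin.cases ?_ (fun l' => ?_) l
    · refine (hprop i j).2.2.1 _ ?_
      have h1 : w 0 ∈ RingHom.ker (toRes S (e i).1) := by
        rw [C97.ker_toRes]
        exact (e i).2.2
      exact h1
    · exact (hprop i j).2.2.2 l'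
  have hback : ∀ g : S, res g = 0 → (∀ i (j : J i), v i j g ≠ 0) →
      Proper S.val res (Fin.cons g w : Fin (m + 1 + 1) → S) := by
    intro g hg hvg
    refine ⟨fun i => ?_, fun Q hQ _ hQf => ?_⟩
    · refine Fin.cases hg (fun l => ?_) i
      exact hp.1 l.succ
    · obtain ⟨V, hVd, hVw, hVQ⟩ := h.exists_isDiv_le Q (w 0) (hQf (Fin.succ 0)) hw0
      obtain ⟨i, hi⟩ := e.surjective ⟨V, hVd, hVw⟩
      have hiV : (e i).1 = V := by rw [hi]
      subst hiV
      have h1 := (hiff i g hg).2 (hvg i)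
      refine h1.2 Q hQ ?_ fun l => ?_
      · rw [C97.ker_toRes]
        exact hVQ
      · refine Fin.cases (hQf 0) (fun l' => ?_) l
        exact hQf l'.succ.succ
  refine ⟨Σ i : Fin n, J i, inferInstance,
    fun j => (ordV (e j.1).1 (w 0 : K)).toNat * μ j.1 j.2, fun j => v j.1 j.2, ?_, ?_, ?_, ?_⟩
  · rintro ⟨i, j⟩
    obtain ⟨h1, h2, h3, h4⟩ := hprop i j
    refine ⟨Nat.mul_pos (hord i) h1, h2, fun a ha => ?_, hwi i j⟩
    have h5 : a = 0 := Subtype.ext ha
    change (v i j) a = 0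
    rw [h5, map_zero]
  · intro v' hv' _ hvw
    obtain ⟨V, hVd, hVw, hVQ⟩ := h.exists_isDiv_le v'.supp (w 0)
      ((Valuation.mem_supp_iff _ _).2 (hvw 0)) hw0
    obtain ⟨i, hi⟩ := e.surjective ⟨V, hVd, hVw⟩
    have hiV : (e i).1 = V := by rw [hi]
    subst hiV
    obtain ⟨j, hj⟩ := hcomp i v' hv' (fun a ha => by
      have h1 : a ∈ cen S (e i).1 := by
        rw [← C97.ker_toRes]
        exact ha
      exact (Valuation.mem_supp_iff _ _).1 (hVQ h1)) fun l => hvw l.succ
    exact ⟨⟨i, j⟩, hj⟩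
  · intro g hg
    constructor
    · rintro h1 ⟨i, j⟩
      exact (hiff i g hg).1 (hpV g h1 _ (e i).2.1 (e i).2.2) j
    · intro h1
      exact hback g hg fun i j => h1 ⟨i, j⟩
  · intro g hg hvg
    have h1 := hback g hg fun i j => hvg ⟨i, j⟩
    have h2 : Rho S.val res (Fin.cons g w : Fin (m + 1 + 1) → S) = Rho S.val res
        (Fin.cons (w 0) (Fin.cons g (fun i => w i.succ) : Fin (m + 1) → S) :
          Fin (m + 1 + 1) → S) := by
      refine Rho_congr_range _ _ _ _ ?_
      have h3 : S.val '' _ = S.val '' _ := congrArg (Set.image S.val) (range_cons_cons g w)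
      rw [← Set.range_comp, ← Set.range_comp] at h3
      exact h3
    rw [h2, (hF1 hk S res h (m + 1) htr (w 0) _ (hswap g h1)).2, Fintype.sum_sigma]
    have h4 : ∑ᶠ V ∈ {V : ValuationSubring K | IsDiv S V}, (ordV V (w 0 : K)).toNat *
        RhoV S V res (Fin.cons g (fun i => w i.succ) : Fin (m + 1) → S) =
        ∑ᶠ V ∈ {V : ValuationSubring K | IsDiv S V ∧ w 0 ∈ cen S V}, (ordV V (w 0 : K)).toNat *
          RhoV S V res (Fin.cons g (fun i => w i.succ) : Fin (m + 1) → S) := by
      refine finsum_mem_inter_support_eq' _ _ _ fun V hV => ?_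
      constructor
      · intro h5
        refine ⟨h5, ?_⟩
        by_contra h6
        rw [IsDiv.notMem_cen h5] at h6
        have h7 : (w 0 : K) ≠ 0 := fun h3 => hw0 (Subtype.ext h3)
        have h8 := (TGh4.ordV_eq_zero_iff (IsDiv.disc h5) h7).2 h6
        rw [Function.mem_support] at hV
        exact hV (by rw [h8]; simp)
      · exact fun h5 => h5.1
    rw [h4, ← finsum_set_coe_eq_finsum_mem]
    have h5 : ∑ᶠ V : {V : ValuationSubring K | IsDiv S V ∧ w 0 ∈ cen S V},
        (ordV V.1 (w 0 : K)).toNat *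
          RhoV S V.1 res (Fin.cons g (fun i => w i.succ) : Fin (m + 1) → S) =
        ∑ᶠ i : Fin n, (ordV (e i).1 (w 0 : K)).toNat *
          RhoV S (e i).1 res (Fin.cons g (fun i => w i.succ) : Fin (m + 1) → S) :=
      (finsum_comp_equiv (f := fun V : {V : ValuationSubring K // IsDiv S V ∧ w 0 ∈ cen S V} =>
        (ordV V.1 (w 0 : K)).toNat *
          RhoV S V.1 res (Fin.cons g (fun i => w i.succ) : Fin (m + 1) → S)) e).symm
    rw [h5, finsum_eq_sum_of_fintype]
    refine Finset.sum_congr rfl fun i _ => ?_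
    have h6 := hsum i g hg fun j => hvg ⟨i, j⟩
    rw [RhoV, h6, Finset.mul_sum]
    exact Finset.sum_congr rfl fun j _ => (mul_assoc _ _ _).symm

end

/-- Part 1 of F2, for all fields of transcendence degree `m + 1`. -/
def F2P1 (k : Type u) [Field k] (m : ℕ) : Prop :=
  ∀ (K : Type u) [Field K] [Algebra k K] (S : Subalgebra k K) (res : S →ₐ[k] k), NPt S res →
    Algebra.trdeg k K = (m + 1 : ℕ) → ∀ (g : S) (w : Fin m → S),
      Proper S.val res (Fin.cons g w : Fin (m + 1) → S) → HasCv S.val res w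

theorem f2_part2 {k : Type u} [Field k] [IsAlgClosed k] (hext : ExtAll k) {m : ℕ}
    (hP : F2P1 k m) {K : Type u} [Field K] [Algebra k K] {S : Subalgebra k K} {res : S →ₐ[k] k}
    (h : NPt S res) (htr : Algebra.trdeg k K = (m + 1 + 1 : ℕ)) {V : ValuationSubring K}
    (hV : IsDiv S V) (g : S) (w : Fin m → S)
    (hp : ProperV S V res (Fin.cons g w : Fin (m + 1) → S)) : HasCv (toRes S V) res w := by
  have hfr : FracOf (toRes S V) := fracOf_residue (cen S V)
  refine hasCv_of_points (hext K S res h V hV) h.locK hfr w g hp fun y hy => ?_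
  have h1 := npt_y h.locK hfr hy
  have h2 := proper_y hp hy
  rw [toP_cons] at h2
  exact hP _ _ _ h1 (trdeg_residue h hV htr) _ _ h2

theorem f2_part1 {k : Type u} [Field k] [IsAlgClosed k] (hext : ExtAll k)
    (hF1 : ∀ (K : Type u) [Field K] [Algebra k K], F1 k K) (m : ℕ) : F2P1 k m := by
  induction m with
  | zero =>
    intro K _ _ S res h htr g w hp
    exact hasCv_zero inferInstance (hF1 K) h htr w
  | succ m ih =>
    intro K _ _ S res h htr g w hp
    exact hasCv_succ inferInstance (hF1 K) h htr w g hp fun V hV _ hpV =>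
      f2_part2 hext ih h htr hV g _ hpV

/-- **F2 from F1 and completeness.** -/
theorem f2_of {k : Type u} [Field k] (hext : ExtAll k)
    (hF1 : ∀ (K : Type u) [Field K] [Algebra k K], F1 k K) (K : Type u) [Field K] [Algebra k K] :
    F2 k K := by
  intro hk S res h m
  exact ⟨fun htr g w hp => f2_part1 hext hF1 m K S res h htr g w hp,
    fun htr V hV g w hp => f2_part2 hext (f2_part1 hext hF1 m) h htr hV g w hp⟩

end Pool.Agent.TGJ
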