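import Pool.Agent.Lib.TGJ_h88.Locx

/-!
# TANK G, block C, row J3z: parameter ideals of the points of the integral closure of `k[f]`
-/

set_option autoImplicit false

namespace Pool.Agent.TGJ88

open Pool.Agent.TG (ncl le_ncl)

universe u

section

variable {k L : Type u} [Field k] [Field L] [Algebra k L]

theorem finite_ncl [PerfectField k] (hL : (⊤ : IntermediateField k L).FG) (O : Subalgebra k L)
    (hO : O.FG) (halg : ∀ a : L, IsAlgebraic O a) : Module.Finite O (integralClosure O L) :=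
  Pool.Agent.TGh68.finite_integralClosure hL O hO halg

theorem ncl_fg [PerfectField k] (hL : (⊤ : IntermediateField k L).FG) (O : Subalgebra k L)
    (hO : O.FG) (halg : ∀ a : L, IsAlgebraic O a) : (ncl O).FG := by
  have h1 := finite_ncl hL O hO halg
  have h2 : Algebra.FiniteType k O := (Subalgebra.fg_iff_finiteType O).1 hO
  have h3 : Algebra.FiniteType k (integralClosure O L) :=
    Algebra.FiniteType.trans h2 (Module.Finite.finiteType (integralClosure O L))
  rw [Subalgebra.fg_iff_finiteType]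
  exact h3

theorem ncl_noeth [PerfectField k] (hL : (⊤ : IntermediateField k L).FG) (O : Subalgebra k L)
    (hO : O.FG) (halg : ∀ a : L, IsAlgebraic O a) : IsNoetherianRing (ncl O) := by
  have h1 : Algebra.FiniteType k (ncl O) :=
    (Subalgebra.fg_iff_finiteType _).1 (ncl_fg hL O hO halg)
  exact Algebra.FiniteType.isNoetherianRing k (ncl O)

/-- `ncl O` is a finite sum `∑ O c`. -/
theorem exists_gens [PerfectField k] (hL : (⊤ : IntermediateField k L).FG) (O : Subalgebra k L)
    (hO : O.FG) (halg : ∀ a : L, IsAlgebraic O a) : ∃ T : Finset (ncl O),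
      ∀ a : ncl O, ∃ o : ncl O → O, a = ∑ c ∈ T, ⟨o c, le_ncl O (o c).2⟩ * c := by
  classical
  obtain ⟨T, hT⟩ := (finite_ncl hL O hO halg).fg_top
  let e : integralClosure O L → ncl O := fun a => ⟨a, a.2⟩
  refine ⟨T.image e, fun a => ?_⟩
  have ha : (⟨a, a.2⟩ : integralClosure O L) ∈ Submodule.span O (T : Set (integralClosure O L)) := by
    rw [hT]; trivial
  rw [Submodule.mem_span_finset] at ha
  obtain ⟨o, -, ho⟩ := ha
  refine ⟨fun c => o ⟨c, c.2⟩, ?_⟩
  have hinj : Set.InjOn e (T : Set (integralClosure O L)) := fun a _ b _ hab =>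
    Subtype.ext (congrArg (fun t : ncl O => (t : L)) hab)
  have h2 : ∑ c ∈ T.image e, (⟨o ⟨c, c.2⟩, le_ncl O (o ⟨c, c.2⟩).2⟩ : ncl O) * c =
      ∑ c ∈ T, (⟨o c, le_ncl O (o c).2⟩ : ncl O) * e c := Finset.sum_image hinj
  refine Eq.trans ?_ h2.symm
  apply Subtype.ext
  have h1 := congrArg (fun t : integralClosure O L => (t : L)) ho
  simp only [AddSubmonoidClass.coe_finsetSum] at h1 ⊢
  rw [← h1]
  refine Finset.sum_congr rfl fun c _ => ?_
  rfl

/-- Quotients of `ncl (k[f])` by `(f)` are finite dimensional. -/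
theorem finite_quot [PerfectField k] (hL : (⊤ : IntermediateField k L).FG) {m : ℕ} (f : Fin m → L)
    (halg : ∀ a : L, IsAlgebraic (Algebra.adjoin k (Set.range f)) a)
    (J : Ideal (ncl (Algebra.adjoin k (Set.range f))))
    (hJ : ∀ a : ncl (Algebra.adjoin k (Set.range f)), (∃ i, (a : L) = f i) → a ∈ J) :
    Module.Finite k (ncl (Algebra.adjoin k (Set.range f)) ⧸ J) := by
  classical
  obtain ⟨O, hOd⟩ : ∃ O, O = Algebra.adjoin k (Set.range f) := ⟨_, rfl⟩
  have hO : O.FG := by
    rw [hOd]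
    exact ⟨(Set.finite_range f).toFinset, by rw [Set.Finite.coe_toFinset]⟩
  subst hOd
  obtain ⟨T, hT⟩ := exists_gens hL _ hO halg
  -- every element of `O` is a constant modulo `J`
  have hconst : ∀ o (ho : o ∈ Algebra.adjoin k (Set.range f)), ∃ r : k,
      (⟨o, le_ncl _ ho⟩ : ncl (Algebra.adjoin k (Set.range f))) - algebraMap k _ r ∈ J := by
    intro o ho
    induction ho using Algebra.adjoin_induction with
    | mem a ha =>
      obtain ⟨i, rfl⟩ := ha
      exact ⟨0, by rw [map_zero, sub_zero]; exact hJ _ ⟨i, rfl⟩⟩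
    | algebraMap r => exact ⟨r, by
        have : (⟨algebraMap k L r, le_ncl _ (Subalgebra.algebraMap_mem _ r)⟩ :
          ncl (Algebra.adjoin k (Set.range f))) = algebraMap k _ r := rfl
        rw [this, sub_self]
        exact J.zero_mem⟩
    | add a b ha hb iha ihb =>
      obtain ⟨r, hr⟩ := iha
      obtain ⟨s, hs⟩ := ihb
      refine ⟨r + s, ?_⟩
      have h1 := J.add_mem hr hs
      rw [map_add]
      have h2 : (⟨a + b, le_ncl _ (add_mem ha hb)⟩ : ncl (Algebra.adjoin k (Set.range f))) =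
        ⟨a, le_ncl _ ha⟩ + ⟨b, le_ncl _ hb⟩ := rfl
      rw [h2]
      convert h1 using 1
      ring
    | mul a b ha hb iha ihb =>
      obtain ⟨r, hr⟩ := iha
      obtain ⟨s, hs⟩ := ihb
      refine ⟨r * s, ?_⟩
      have h2 : (⟨a * b, le_ncl _ (mul_mem ha hb)⟩ : ncl (Algebra.adjoin k (Set.range f))) =
        ⟨a, le_ncl _ ha⟩ * ⟨b, le_ncl _ hb⟩ := rfl
      rw [h2, map_mul]
      have h1 := J.add_mem (J.mul_mem_right (⟨b, le_ncl _ hb⟩ :
        ncl (Algebra.adjoin k (Set.range f))) hr) (J.mul_mem_left (algebraMap k _ r) hs)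
      convert h1 using 1
      ring
  refine ⟨⟨T.image (Ideal.Quotient.mk J), ?_⟩⟩
  rw [eq_top_iff]
  rintro q -
  obtain ⟨a, rfl⟩ := Ideal.Quotient.mk_surjective q
  obtain ⟨o, ho⟩ := hT a
  rw [ho, map_sum]
  refine Submodule.sum_mem _ fun c hc => ?_
  obtain ⟨r, hr⟩ := hconst (o c) (o c).2
  have h1 : Ideal.Quotient.mk J (⟨o c, le_ncl _ (o c).2⟩ * c) =
      r • Ideal.Quotient.mk J c := by
    have h2 : r • Ideal.Quotient.mk J c = Ideal.Quotient.mk J (r • c) := rfl
    rw [h2, Ideal.Quotient.eq, Algebra.smul_def, ← sub_mul]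
    exact J.mul_mem_right _ hr
  rw [h1]
  exact Submodule.smul_mem _ _ (Submodule.subset_span (by
    rw [Finset.coe_image]
    exact Set.mem_image_of_mem _ hc))

/-- In a ring with `R / J` artinian the powers of an ideal stabilise modulo `J`. -/
theorem exists_pow_le_of_artinian {R : Type*} [CommRing R] (J I : Ideal R)
    [IsArtinianRing (R ⧸ J)] : ∃ s : ℕ, I ^ (s + 1) ≤ J ⊔ I ^ (s + 2) := by
  obtain ⟨n, hn⟩ := IsArtinian.monotone_stabilizes (R := R ⧸ J) (M := R ⧸ J)
    ⟨fun m => OrderDual.toDual ((I.map (Ideal.Quotient.mk J)) ^ m), fun a b hab => by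
      change (I.map (Ideal.Quotient.mk J)) ^ b ≤ (I.map (Ideal.Quotient.mk J)) ^ a
      exact Ideal.pow_le_pow_right hab⟩
  have h1 : (I.map (Ideal.Quotient.mk J)) ^ (n + 1) = (I.map (Ideal.Quotient.mk J)) ^ (n + 2) := by
    have h2 := hn (n + 1) (by omega)
    have h3 := hn (n + 2) (by omega)
    exact h2.symm.trans h3
  refine ⟨n, fun a ha => ?_⟩
  have h2 : Ideal.Quotient.mk J a ∈ (I.map (Ideal.Quotient.mk J)) ^ (n + 1) := by
    rw [← Ideal.map_pow]
    exact Ideal.mem_map_of_mem _ ha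
  rw [h1, ← Ideal.map_pow, Ideal.mem_map_iff_of_surjective _ Ideal.Quotient.mk_surjective] at h2
  obtain ⟨b, hb, hab⟩ := h2
  rw [Ideal.Quotient.eq] at hab
  have h3 : a = -(b - a) + b := by ring
  rw [h3]
  exact Submodule.add_mem_sup (J.neg_mem hab) hb

/-- **(B)** At a point of the integral closure of `k[f]` the ideal `(f)` is a parameter ideal. -/
theorem exists_pow_le [PerfectField k] (hL : (⊤ : IntermediateField k L).FG) {m : ℕ}
    (f : Fin m → L) (halg : ∀ a : L, IsAlgebraic (Algebra.adjoin k (Set.range f)) a)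
    (I J : Ideal (ncl (Algebra.adjoin k (Set.range f))))
    (hJ : ∀ a : ncl (Algebra.adjoin k (Set.range f)), (∃ i, (a : L) = f i) → a ∈ J) :
    ∃ s : ℕ, I ^ (s + 1) ≤ J ⊔ I ^ (s + 2) := by
  have h1 := finite_quot hL f halg J hJ
  have h2 : IsArtinianRing (ncl (Algebra.adjoin k (Set.range f)) ⧸ J) :=
    IsArtinianRing.of_finite k _
  exact exists_pow_le_of_artinian J I

end

end Pool.Agent.TGJ88
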