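import Pool.Agent.Lib.TGJ_h88.F2
import Pool.Agent.Lib.TGJ.AllC
import Pool.Agent.Lib.TGJ.InR1
import Pool.Agent.Lib.TGBC_h29.RowJ9

/-!
# TANK G, block C: `ThmC` and the row J9 of the assembly, without hypotheses
-/

set_option autoImplicit false

namespace Pool.Agent.TGJ

universe u

/-- **ThmC.** -/
theorem thmC_all (k K : Type u) [Field k] [Field K] [Algebra k K] : ThmC k K :=
  thmC_of k K (f1 k K) (f2 k K) fun _ => inR1 k K

/-- **Row J9** of the assembly. -/
theorem rowJ9_all (k K : Type u) [Field k] [Field K] [Algebra k K] : TGTop.RowJ9 k K :=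
  TGBC.rowJ9_of (f2 k K)

end Pool.Agent.TGJ
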