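import Pool.Agent.Lib.TGJ_h88.Prop

/-!
# TANK G, block C, row R4: the points of the integral closure of the image of a local ring
-/

set_option autoImplicit false

namespace Pool.Agent.TGJ

open Pool.Agent.TG (ncl le_ncl ncl_mono ncl_ncl)
open Pool.Agent.TGJ88

universe u

variable {k : Type u} [Field k]

/-- The localisation of a normal ring at a point is normal. -/
theorem locx_ic {L : Type u} [Field L] [Algebra k L] {A : Subalgebra k L} {x : A →ₐ[k] k}
    (hA : ncl A ≤ A) (a : L) (ha : IsIntegral (locx A x) a) : a ∈ locx A x := by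
  have ht : IsScalarTower A (locx A x) L := IsScalarTower.of_algebraMap_eq fun _ => rfl
  obtain ⟨m, hm⟩ := IsIntegral.exists_multiple_integral_of_isLocalization
    (idl x).primeCompl a ha
  have h1 : ((m : A) : L) * a ∈ ncl A := by
    have h2 : m • a = ((m : A) : L) * a := rfl
    rw [← h2]
    exact hm
  exact ⟨⟨_, hA h1⟩, m, fun h => m.2 h, mul_comm _ _⟩

/-- A local ring with residue field `k`, essentially of finite type. -/
structure LocK {S : Type u} [CommRing S] [Algebra k S] (res : S →ₐ[k] k) : Prop where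
  unit : ∀ s, res s ≠ 0 → IsUnit s
  fg : ∃ A₀ : Subalgebra k S, A₀.FG ∧ ∀ s : S, ∃ a b : A₀, res b = 1 ∧ s * b = a

section

variable {S : Type u} [CommRing S] [Algebra k S] {L : Type u} [Field L] [Algebra k L]
  {φ : S →ₐ[k] L} {res : S →ₐ[k] k}

theorem exists_denom88 (hL : LocK res) : ∃ A₀ : Subalgebra k S, A₀.FG ∧
    (∀ s : S, ∃ a b : A₀, res b = 1 ∧ s * b = a) ∧
    ∀ z ∈ ncl φ.range, ∃ d ∈ A₀, res d = 1 ∧ φ d * z ∈ ncl (A₀.map φ) := by
  obtain ⟨A₀, hA₀, hs⟩ := hL.fg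
  refine ⟨A₀, hA₀, hs, fun z hz => ?_⟩
  let M₀ : Submonoid A₀ :=
    { carrier := {d | res (d : S) ≠ 0}
      one_mem' := by
        change res (1 : S) ≠ 0
        rw [map_one]
        exact one_ne_zero
      mul_mem' := fun {a b} ha hb => by
        change res ((a : S) * b) ≠ 0
        rw [map_mul]
        exact mul_ne_zero ha hb }
  have hloc : IsLocalization M₀ S := by
    refine (isLocalization_iff _ _).2 ⟨fun y => hL.unit _ y.2, fun s => ?_, fun {a b} hab => ?_⟩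
    · obtain ⟨a, b, hb, hab⟩ := hs s
      refine ⟨(a, ⟨b, ?_⟩), hab⟩
      change res (b : S) ≠ 0
      rw [hb]
      exact one_ne_zero
    · exact ⟨1, by rw [Subtype.ext hab]⟩
  let _ : Algebra S L := φ.toRingHom.toAlgebra
  let _ : Algebra S φ.range := φ.rangeRestrict.toRingHom.toAlgebra
  have ht2 : IsScalarTower S φ.range L := IsScalarTower.of_algebraMap_eq fun _ => rfl
  have hint : Algebra.IsIntegral S φ.range := ⟨fun c => by
    obtain ⟨s, rfl⟩ := φ.rangeRestrict_surjective c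
    exact isIntegral_algebraMap (R := S) (A := φ.range) (x := s)⟩
  have hz1 : IsIntegral S z := isIntegral_trans (R := S) (A := φ.range) z hz
  obtain ⟨m, hm⟩ := IsIntegral.exists_multiple_integral_of_isLocalization M₀ z hz1
  have hm0 : res ((m : A₀) : S) ≠ 0 := m.2
  obtain ⟨c, hc⟩ : ∃ c, c = (res ((m : A₀) : S))⁻¹ := ⟨_, rfl⟩
  refine ⟨c • ((m : A₀) : S), A₀.smul_mem (m : A₀).2 c, ?_, ?_⟩
  · rw [map_smul, smul_eq_mul, hc, inv_mul_cancel₀ hm0]
  · have h1 : IsIntegral A₀ (φ ((m : A₀) : S) * z) := hm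
    have h2 : φ ((m : A₀) : S) * z ∈ ncl (A₀.map φ) := by
      obtain ⟨p, hp, hpz⟩ := h1
      let ψ : A₀ →+* A₀.map φ := (φ.toRingHom.comp A₀.val.toRingHom).codRestrict
        (A₀.map φ).toSubring fun a => ⟨a, a.2, rfl⟩
      refine ⟨p.map ψ, hp.map _, ?_⟩
      rw [Polynomial.eval₂_map]
      exact hpz
    have h3 : φ (c • ((m : A₀) : S)) * z = c • (φ ((m : A₀) : S) * z) := by
      rw [map_smul, smul_mul_assoc]
    rw [h3]
    exact (ncl (A₀.map φ)).smul_mem h2 c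

/-- The integral closure of the image of `φ`. -/
def Bn (φ : S →ₐ[k] L) : Subalgebra k L := ncl φ.range

theorem mem_Bn (φ : S →ₐ[k] L) (s : S) : φ s ∈ Bn φ := le_ncl _ ⟨s, rfl⟩

/-- The map to the integral closure. -/
def toB (φ : S →ₐ[k] L) : S →ₐ[k] Bn φ := φ.codRestrict _ (mem_Bn φ)

/-- The points of the integral closure over the point `res`. -/
def IsY (φ : S →ₐ[k] L) (res : S →ₐ[k] k) (y : Bn φ →ₐ[k] k) : Prop := y.comp (toB φ) = res

/-- The map to the local ring of a point of the integral closure. -/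
def toP (φ : S →ₐ[k] L) (y : Bn φ →ₐ[k] k) : S →ₐ[k] locx (Bn φ) y :=
  φ.codRestrict _ fun s => le_locx _ _ (mem_Bn φ s)

@[simp] theorem toP_coe (y : Bn φ →ₐ[k] k) (s : S) : ((toP φ y s : locx (Bn φ) y) : L) = φ s := rfl

theorem evx_toP {y : Bn φ →ₐ[k] k} (hy : IsY φ res y) (s : S) :
    evx (Bn φ) y (toP φ y s) = res s := by
  have h1 : toP φ y s = algebraMap (Bn φ) (locx (Bn φ) y) (toB φ s) := rfl
  rw [h1, evx_coe, ← hy]
  rfl

theorem FracOf.isAlgebraic_map (hfr : FracOf φ) {A₀ : Subalgebra k S}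
    (hs : ∀ s : S, ∃ a b : A₀, res b = 1 ∧ s * b = a) (hu : ∀ s, res s ≠ 0 → IsUnit s) (l : L) :
    ∃ a b : A₀.map φ, (b : L) ≠ 0 ∧ l * b = a := by
  obtain ⟨s, t, ht, hl⟩ := hfr l
  obtain ⟨a, b, hb, hab⟩ := hs s
  obtain ⟨c, d, hd, hcd⟩ := hs t
  have hne : ∀ e : S, res e = 1 → φ e ≠ 0 := fun e he =>
    ((hu e (by rw [he]; exact one_ne_zero)).map φ).ne_zero
  have hφc : φ c ≠ 0 := by rw [← hcd, map_mul]; exact mul_ne_zero ht (hne _ hd)
  refine ⟨⟨φ (a * d), _, mul_mem a.2 d.2, rfl⟩, ⟨φ (c * b), _, mul_mem c.2 b.2, rfl⟩, ?_, ?_⟩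
  · change φ (c * b) ≠ 0
    rw [map_mul]
    exact mul_ne_zero hφc (hne _ hb)
  · change l * φ (c * b) = φ (a * d)
    rw [map_mul, map_mul, ← hcd, ← hab, map_mul, map_mul]
    linear_combination (φ b * φ d) * hl

/-- **The points of the integral closure are normal points of `L`.** -/
theorem npt_y [PerfectField k] (hL : LocK res) (hfr : FracOf φ) {y : Bn φ →ₐ[k] k}
    (hy : IsY φ res y) : NPt (locx (Bn φ) y) (evx (Bn φ) y) := by
  obtain ⟨A₀, hA₀, hs, hden⟩ := exists_denom88 (φ := φ) hL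
  have hfr' := hfr.isAlgebraic_map hs hL.unit
  have hA₁ : (A₀.map φ).FG := hA₀.map φ
  have htop : (⊤ : IntermediateField k L).FG := fg_top_of_frac hA₁ hfr'
  have halg : ∀ l : L, IsAlgebraic (A₀.map φ) l := by
    intro l
    obtain ⟨a, b, hb, hab⟩ := hfr' l
    have h1 : l = (a : L) * (b : L)⁻¹ := by rw [← hab, mul_inv_cancel_right₀ hb]
    rw [h1]
    exact (isAlgebraic_algebraMap (A := L) a).mul (isAlgebraic_algebraMap (A := L) b).inv
  have hC₁ : (ncl (A₀.map φ)).FG := ncl_fg htop _ hA₁ halg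
  have hle : A₀.map φ ≤ φ.range := by
    rintro _ ⟨a, -, rfl⟩
    exact ⟨a, rfl⟩
  have hCB : ncl (A₀.map φ) ≤ Bn φ := ncl_mono hle
  have hCP : ncl (A₀.map φ) ≤ locx (Bn φ) y := hCB.trans (le_locx _ _)
  refine ⟨fun a ha => inv_mem_of_evx ha, locx_ic (by rw [Bn, ncl_ncl]), ⟨_, hC₁, hCP, ?_⟩, ?_⟩
  · intro s
    obtain ⟨b, c, hc, hsc⟩ := s.2
    obtain ⟨d, hd, hd1, hdb⟩ := hden b b.2
    obtain ⟨d', hd', hd'1, hdc⟩ := hden c c.2
    have hdC : φ d ∈ ncl (A₀.map φ) := le_ncl _ ⟨d, hd, rfl⟩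
    have hdC' : φ d' ∈ ncl (A₀.map φ) := le_ncl _ ⟨d', hd', rfl⟩
    have hev : ∀ (c' : L) (h' : c' ∈ ncl (A₀.map φ)),
        evx (Bn φ) y (Subalgebra.inclusion hCP ⟨c', h'⟩) = y ⟨c', hCB h'⟩ := fun c' h' =>
      evx_coe (x := y) ⟨c', hCB h'⟩
    have hyd : ∀ e, y ⟨φ e, mem_Bn φ e⟩ = res e := fun e => by
      rw [← hy]; rfl
    -- the denominator
    have hm : φ d * (φ d' * c) ∈ ncl (A₀.map φ) := mul_mem hdC hdc
    have hm' : φ d' * (φ d * b) ∈ ncl (A₀.map φ) := mul_mem hdC' hdb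
    have hym : y ⟨φ d * (φ d' * c), hCB hm⟩ = y c := by
      have h1 : (⟨φ d * (φ d' * c), hCB hm⟩ : Bn φ) =
          ⟨φ d, mem_Bn φ d⟩ * (⟨φ d', mem_Bn φ d'⟩ * c) := rfl
      rw [h1, map_mul, map_mul, hyd, hyd, hd1, hd'1, one_mul, one_mul]
    refine ⟨(y c)⁻¹ • ⟨_, hm'⟩, (y c)⁻¹ • ⟨_, hm⟩, ?_, ?_⟩
    · rw [map_smul, map_smul, hev, hym, smul_eq_mul, inv_mul_cancel₀ hc]
    · change (s : L) * ((y c)⁻¹ • (φ d * (φ d' * c))) = (y c)⁻¹ • (φ d' * (φ d * b))
      rw [mul_smul_comm, ← hsc]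
      congr 1
      ring
  · intro l
    obtain ⟨a, b, hb, hab⟩ := hfr l
    exact ⟨toP φ y a, toP φ y b, hb, hab⟩

end

end Pool.Agent.TGJ
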