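import Pool.Agent.Lib.TGJ_h88.Pts2

/-!
# TANK G, block C, row R4: `Rho` as a sum over the points of the integral closure
-/

set_option autoImplicit false

namespace Pool.Agent.TGJ

open Pool.Agent.TG (ncl le_ncl ncl_mono ncl_ncl)
open Pool.Agent.TGJ88

universe u

variable {k : Type u} [Field k] {S : Type u} [CommRing S] [Algebra k S] {L : Type u} [Field L]
  [Algebra k L] {φ : S →ₐ[k] L} {res : S →ₐ[k] k}

theorem doms_of_y {y : Bn φ →ₐ[k] k} (hy : IsY φ res y) {m : ℕ} {f' : Fin m → L}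
    {x : icf k f' →ₐ[k] k} (hx : Doms (locx (Bn φ) y).val (evx (Bn φ) y) f' x) :
    Doms φ res f' x := fun s => by
  obtain ⟨a, b, hb, hab, ha⟩ := hx (toP φ y s)
  exact ⟨a, b, hb, hab, by rw [ha, evx_toP hy]⟩

theorem eq_of_doms_y {y y' : Bn φ →ₐ[k] k} {m : ℕ} {f' : Fin m → L} {x : icf k f' →ₐ[k] k}
    (hx : Doms (locx (Bn φ) y).val (evx (Bn φ) y) f' x)
    (hx' : Doms (locx (Bn φ) y').val (evx (Bn φ) y') f' x) : y = y' := by
  refine AlgHom.ext fun z => ?_
  obtain ⟨a, b, hb, hab, ha⟩ := hx (algebraMap (Bn φ) _ z)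
  obtain ⟨a', b', hb', hab', ha'⟩ := hx' (algebraMap (Bn φ) _ z)
  rw [evx_coe] at ha ha'
  have h1 : a * b' = a' * b := by
    apply Subtype.ext
    change (a : L) * b' = a' * b
    rw [← hab, ← hab']
    change (z : L) * b * b' = (z : L) * b' * b
    ring
  have h2 := congrArg x h1
  rw [map_mul, map_mul, hb, hb', mul_one, mul_one, ha, ha'] at h2
  exact h2

theorem exists_y_of_doms {m : ℕ} {f' : Fin m → L} {x : icf k f' →ₐ[k] k}
    (hx : Doms φ res f' x) : ∃ y, IsY φ res y ∧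
      Doms (locx (Bn φ) y).val (evx (Bn φ) y) f' x := by
  have hic : ncl (locx (icf k f') x) ≤ locx (icf k f') x :=
    locx_ic (by rw [icf, ncl_ncl])
  have hr : φ.range ≤ locx (icf k f') x := by
    rintro _ ⟨s, rfl⟩
    obtain ⟨a, b, hb, hab, ha⟩ := hx s
    exact ⟨a, b, by rw [hb]; exact one_ne_zero, hab⟩
  have hB : Bn φ ≤ locx (icf k f') x := (ncl_mono hr).trans hic
  obtain ⟨y, hyd⟩ : ∃ y, y = (evx (icf k f') x).comp (Subalgebra.inclusion hB) := ⟨_, rfl⟩
  have hye : ∀ z : Bn φ, y z = evx (icf k f') x ⟨z, hB z.2⟩ := fun z => by rw [hyd]; rfl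
  refine ⟨y, AlgHom.ext fun s => ?_, fun s => ?_⟩
  · obtain ⟨a, b, hb, hab, ha⟩ := hx s
    change y (toB φ s) = res s
    rw [hye, ← ha]
    have h1 : (⟨φ s, hB (mem_Bn φ s)⟩ : locx (icf k f') x) * algebraMap _ _ b =
        algebraMap _ _ a := Subtype.ext hab
    have h2 := congrArg (evx (icf k f') x) h1
    rw [map_mul, evx_coe, evx_coe, hb, mul_one] at h2
    exact h2
  · obtain ⟨b, c, hc, hsc⟩ := s.2
    have hc0 : (c : L) ≠ 0 := ne_zero_of_ev hc
    have hcT : ((⟨c, hB c.2⟩ : locx (icf k f') x) : L)⁻¹ ∈ locx (icf k f') x :=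
      inv_mem_of_evx (by rw [← hye]; exact hc)
    have hsT : (s : L) ∈ locx (icf k f') x := by
      have h1 : (s : L) = (b : L) * (c : L)⁻¹ := by rw [← hsc, mul_inv_cancel_right₀ hc0]
      rw [h1]
      exact mul_mem (hB b.2) hcT
    have hval : evx (icf k f') x ⟨s, hsT⟩ = evx (Bn φ) y s := by
      have h1 : (⟨s, hsT⟩ : locx (icf k f') x) * ⟨c, hB c.2⟩ = ⟨b, hB b.2⟩ := Subtype.ext hsc
      have h2 := congrArg (evx (icf k f') x) h1
      rw [map_mul, ← hye, ← hye] at h2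
      have h3 : s * algebraMap (Bn φ) (locx (Bn φ) y) c = algebraMap _ _ b := Subtype.ext hsc
      have h4 := congrArg (evx (Bn φ) y) h3
      rw [map_mul, evx_coe, evx_coe] at h4
      exact mul_right_cancel₀ hc (h2.trans h4.symm)
    obtain ⟨a', b', hb', hab'⟩ := hsT
    refine ⟨(x b')⁻¹ • a', (x b')⁻¹ • b', ?_, ?_, ?_⟩
    · rw [map_smul, smul_eq_mul, inv_mul_cancel₀ hb']
    · change (s : L) * ((x b')⁻¹ • (b' : L)) = (x b')⁻¹ • (a' : L)
      rw [mul_smul_comm, hab']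
    · rw [map_smul, smul_eq_mul, ← hval]
      have h1 : (⟨s, ⟨a', b', hb', hab'⟩⟩ : locx (icf k f') x) * algebraMap _ _ b' =
          algebraMap _ _ a' := Subtype.ext hab'
      have h2 := congrArg (evx (icf k f') x) h1
      rw [map_mul, evx_coe, evx_coe] at h2
      rw [← h2, mul_comm (evx (icf k f') x _), inv_mul_cancel_left₀ hb']

/-- Finitely many points over `0`. -/
theorem finite_over0 [PerfectField k] (htop : (⊤ : IntermediateField k L).FG) {m : ℕ}
    (f : Fin m → L) (halg : ∀ a : L, IsAlgebraic (kf k f) a) :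
    {x : icf k f →ₐ[k] k | Over0 f x}.Finite := by
  obtain ⟨J, hJ⟩ : ∃ J : Ideal (icf k f), J = Ideal.span (Set.range (icf.X f)) := ⟨_, rfl⟩
  have h1 : Module.Finite k (icf k f ⧸ J) := finite_quot htop f halg J fun a ⟨i, hi⟩ => by
    rw [hJ]
    exact Ideal.subset_span ⟨i, Subtype.ext hi.symm⟩
  have h2 : IsArtinianRing (icf k f ⧸ J) := IsArtinianRing.of_finite k _
  have hlift : ∀ x : {x : icf k f →ₐ[k] k | Over0 f x}, ∀ a ∈ J, x.1 a = 0 := by
    intro x a ha
    rw [hJ] at ha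
    induction ha using Submodule.span_induction with
    | mem a ha => obtain ⟨i, rfl⟩ := ha; exact x.2 i
    | zero => exact map_zero _
    | add a b _ _ ha hb => rw [map_add, ha, hb, add_zero]
    | smul a b _ hb => rw [smul_eq_mul, map_mul, hb, mul_zero]
  let g : {x : icf k f →ₐ[k] k | Over0 f x} → PrimeSpectrum (icf k f ⧸ J) := fun x =>
    ⟨RingHom.ker (Ideal.Quotient.liftₐ J x.1 (hlift x)), RingHom.ker_isPrime _⟩
  have hg : Function.Injective g := by
    intro x x' hxx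
    have h3 : RingHom.ker (Ideal.Quotient.liftₐ J x.1 (hlift x)) =
        RingHom.ker (Ideal.Quotient.liftₐ J x'.1 (hlift x')) :=
      congrArg PrimeSpectrum.asIdeal hxx
    refine Subtype.ext (AlgHom.ext fun a => ?_)
    have h4 : Ideal.Quotient.mk J (a - algebraMap k _ (x.1 a)) ∈
        RingHom.ker (Ideal.Quotient.liftₐ J x.1 (hlift x)) := by
      rw [RingHom.mem_ker]
      change x.1 (a - algebraMap k _ (x.1 a)) = 0
      rw [map_sub, AlgHom.commutes]
      exact sub_self _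
    rw [h3, RingHom.mem_ker] at h4
    change x'.1 (a - algebraMap k _ (x.1 a)) = 0 at h4
    rw [map_sub, AlgHom.commutes, sub_eq_zero] at h4
    exact h4.symm
  have : Finite {x : icf k f →ₐ[k] k | Over0 f x} := Finite.of_injective g hg
  exact Set.toFinite _

theorem NPt.exists_pt' {K : Type u} [Field K] [Algebra k K] {S : Subalgebra k K}
    {res : S →ₐ[k] k} (h : NPt S res) {n : ℕ} {f : Fin n → S} (hf : Proper S.val res f)
    (f' : Fin n → K) (hf' : (fun i => (f i : K)) = f') :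
    ∃ x : icf k f' →ₐ[k] k, Over0 f' x ∧ Doms S.val res f' x ∧
      locx (icf k f') x = S ∧ (∀ x', Doms S.val res f' x' → x' = x) ∧
        Rho S.val res f = rho f' x := by
  subst hf'
  obtain ⟨x, h0, hd, hS, hu⟩ := h.exists_pt hf
  exact ⟨x, h0, hd, hS, hu, h.Rho_eq hf hd⟩

theorem NPt.fin_over0 [PerfectField k] {K : Type u} [Field K] [Algebra k K] {S : Subalgebra k K}
    {res : S →ₐ[k] k} (h : NPt S res) {n : ℕ} {f : Fin n → S} (hf : Proper S.val res f)
    (f' : Fin n → K) (hf' : (fun i => (f i : K)) = f') :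
    {x : icf k f' →ₐ[k] k | Over0 f' x}.Finite := by
  subst hf'
  exact finite_over0 h.fg_top _ fun z => h.isAlgebraic hf z

variable [IsAlgClosed k]

theorem frac_alg (hL : LocK res) (hfr : FracOf φ) {m : ℕ} {f : Fin m → S} (hp : Proper φ res f)
    {f' : Fin m → L} (hf' : (fun i => φ (f i)) = f') (y : {y // IsY φ res y}) :
    ∃ x : icf k f' →ₐ[k] k, Over0 f' x ∧
      Doms (locx (Bn φ) y.1).val (evx (Bn φ) y.1) f' x ∧
      (∀ x', Doms (locx (Bn φ) y.1).val (evx (Bn φ) y.1) f' x' → x' = x) ∧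
      Rho (locx (Bn φ) y.1).val (evx (Bn φ) y.1) (fun i => toP φ y.1 (f i)) = rho f' x := by
  obtain ⟨x, h0, hd, -, hu, hr⟩ :=
    (npt_y hL hfr y.2).exists_pt' (proper_y hp y.2) f' hf'
  exact ⟨x, h0, hd, hu, hr⟩

theorem Rho_eq_finsum' (hL : LocK res) (hfr : FracOf φ) {m : ℕ} {f : Fin m → S}
    (hp : Proper φ res f) (f' : Fin m → L) (hf' : (fun i => φ (f i)) = f') :
    ∑ᶠ x ∈ {x : icf k f' →ₐ[k] k | Over0 f' x ∧ Doms φ res f' x}, rho f' x =
      ∑ᶠ y : {y // IsY φ res y},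
        Rho (locx (Bn φ) y.1).val (evx (Bn φ) y.1) (fun i => toP φ y.1 (f i)) := by
  choose e he0 hed heu her using frac_alg hL hfr hp hf'
  rw [← finsum_set_coe_eq_finsum_mem]
  symm
  refine finsum_eq_of_bijective
    (fun y => (⟨e y, he0 y, doms_of_y y.2 (hed y)⟩ :
      {x : icf k f' →ₐ[k] k | Over0 f' x ∧ Doms φ res f' x})) ⟨?_, ?_⟩ ?_
  · intro y y' hyy
    have h1 : e y = e y' := congrArg Subtype.val hyy
    have h2 := hed y
    rw [h1] at h2
    exact Subtype.ext (eq_of_doms_y h2 (hed y'))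
  · rintro ⟨x, hx0, hxd⟩
    obtain ⟨y, hy, hyx⟩ := exists_y_of_doms hxd
    exact ⟨⟨y, hy⟩, Subtype.ext (heu ⟨y, hy⟩ x hyx).symm⟩
  · intro y
    exact her y

/-- **`Rho` is the sum over the points of the integral closure.** -/
theorem Rho_eq_finsum (hL : LocK res) (hfr : FracOf φ) {m : ℕ} {f : Fin m → S}
    (hp : Proper φ res f) : Rho φ res f = ∑ᶠ y : {y // IsY φ res y},
      Rho (locx (Bn φ) y.1).val (evx (Bn φ) y.1) (fun i => toP φ y.1 (f i)) :=
  Rho_eq_finsum' hL hfr hp _ rfl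

theorem finite_y (hL : LocK res) (hfr : FracOf φ) {m : ℕ} {f : Fin m → S}
    (hp : Proper φ res f) : Finite {y // IsY φ res y} := by
  obtain ⟨f', hf'⟩ : ∃ f', (fun i => φ (f i)) = f' := ⟨_, rfl⟩
  choose e he0 hed heu her using frac_alg hL hfr hp hf'
  by_cases hne : Nonempty {y // IsY φ res y}
  · obtain ⟨y₀⟩ := hne
    have h1 : {x : icf k f' →ₐ[k] k | Over0 f' x}.Finite :=
      (npt_y hL hfr y₀.2).fin_over0 (proper_y hp y₀.2) f' hf'
    have h2 : Finite {x : icf k f' →ₐ[k] k | Over0 f' x} := h1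
    refine Finite.of_injective (fun y => (⟨e y, he0 y⟩ :
      {x : icf k f' →ₐ[k] k | Over0 f' x})) fun y y' hyy => ?_
    have h1 : e y = e y' := congrArg Subtype.val hyy
    have h2 := hed y
    rw [h1] at h2
    exact Subtype.ext (eq_of_doms_y h2 (hed y'))
  · rw [not_nonempty_iff] at hne
    infer_instance

end Pool.Agent.TGJ
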